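import Pool.Agent.H312.Barnes.Ms
import Pool.Agent.H312.Sh.Grow

set_option autoImplicit false

/-!
# The resonance integral
-/

namespace Pool.Agent.H312.Ex

open Finset Filter Topology MeasureTheory Complex Set
open Pool.Agent.H131R5.BZ Pool.Agent.Y930.Bz Pool.Agent.Y616.BM Pool.Agent.H312.Barnes

variable {r : ℕ} {w : Fin r → ℝ}

/-- the resonance product -/
noncomputable def PP {r : ℕ} (w : Fin r → ℝ) (T ρ : ℝ) : ℝ :=
  ∏ j, ((max (nd (ρ * w j)) (ρ / T)) ^ 2)⁻¹

/-- the resonance integral -/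
noncomputable def FT {r : ℕ} (w : Fin r → ℝ) (σ T : ℝ) : ENNReal :=
  ∫⁻ ρ in Ioc 1 T, ENNReal.ofReal (ρ ^ (2 * σ - 1) * PP w T ρ)

lemma PP_nonneg (w : Fin r → ℝ) (T ρ : ℝ) : 0 ≤ PP w T ρ :=
  Finset.prod_nonneg fun j _ => by positivity

lemma mx_pos {T ρ : ℝ} (hT : 0 < T) (hρ : 0 < ρ) (x : ℝ) : 0 < max (nd x) (ρ / T) :=
  (div_pos hρ hT).trans_le (le_max_right _ _)

lemma one_le_PP {T ρ : ℝ} (hρ : 0 < ρ) (hρT : ρ ≤ T) : 1 ≤ PP w T ρ := by
  have hT : 0 < T := hρ.trans_le hρT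
  unfold PP
  calc (1 : ℝ) = ∏ _j : Fin r, (1 : ℝ) := by simp
    _ ≤ _ := by
      refine Finset.prod_le_prod (fun _ _ => zero_le_one) fun j _ => ?_
      have h0 := mx_pos hT hρ (ρ * w j)
      have h1 : max (nd (ρ * w j)) (ρ / T) ≤ 1 :=
        max_le ((nd_le_half _).trans (by norm_num)) ((div_le_one hT).2 hρT)
      have h2 : (max (nd (ρ * w j)) (ρ / T)) ^ 2 ≤ 1 := pow_le_one₀ h0.le h1
      exact (one_le_inv₀ (by positivity)).2 h2

lemma prod_cmp {c : ℝ} (hc : 0 < c) {f g : Fin r → ℝ} (hf : ∀ j, 0 < f j)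
    (hg : ∀ j, f j ≤ c * g j) : ∏ j, ((g j) ^ 2)⁻¹ ≤ c ^ (2 * r) * ∏ j, ((f j) ^ 2)⁻¹ := by
  have h1 : c ^ (2 * r) = ∏ _j : Fin r, c ^ 2 := by
    rw [Finset.prod_const, Finset.card_univ, Fintype.card_fin, ← pow_mul]
  rw [h1, ← Finset.prod_mul_distrib]
  refine Finset.prod_le_prod (fun j _ => by positivity) fun j _ => ?_
  have h2 := hf j
  have h3 : f j / c ≤ g j := by rw [div_le_iff₀ hc]; linarith [hg j]
  have h4 : c ^ 2 * ((f j) ^ 2)⁻¹ = ((f j / c) ^ 2)⁻¹ := by
    rw [div_pow, inv_div, div_eq_mul_inv]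
  rw [h4]
  have h5 : 0 < f j / c := by positivity
  exact inv_anti₀ (by positivity) (pow_le_pow_left₀ h5.le h3 2)

lemma subst_exp {κ : ℝ} (hκ : 0 < κ) (σ T : ℝ) {h : ℝ → ℝ} (hh : ∀ ρ, 0 ≤ h ρ) :
    ∫⁻ ρ in Ioc 1 T, ENNReal.ofReal (ρ ^ (2 * σ - 1) * h ρ) =
      ENNReal.ofReal (κ ^ (2 * σ)) * ∫⁻ u in {u : ℝ | κ * Real.exp (-u) ∈ Ioc 1 T},
        ENNReal.ofReal (h (κ * Real.exp (-u))) * ENNReal.ofReal (Real.exp (-(2 * σ) * u)) := by
  set S : Set ℝ := {u : ℝ | κ * Real.exp (-u) ∈ Ioc 1 T} with hS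
  have hSm : MeasurableSet S := by
    have h1 : Measurable fun u : ℝ => κ * Real.exp (-u) := by fun_prop
    exact h1 measurableSet_Ioc
  have himg : (fun u : ℝ => κ * Real.exp (-u)) '' S = Ioc 1 T := by
    ext ρ
    constructor
    · rintro ⟨u, hu, rfl⟩
      exact hu
    · intro hρ
      have hρ0 : 0 < ρ := by linarith [hρ.1]
      have e : κ * Real.exp (-(-Real.log (ρ / κ))) = ρ := by
        rw [neg_neg, Real.exp_log (by positivity)]
        field_simp
      refine ⟨-Real.log (ρ / κ), ?_, e⟩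
      show κ * Real.exp (-(-Real.log (ρ / κ))) ∈ Ioc 1 T
      rw [e]
      exact hρ
  have hder : ∀ u ∈ S, HasDerivWithinAt (fun u : ℝ => κ * Real.exp (-u)) (-(κ * Real.exp (-u))) S u := by
    intro u _
    have h1 : HasDerivAt (fun u : ℝ => κ * Real.exp (-u)) (κ * (Real.exp (-u) * (-1))) u :=
      ((hasDerivAt_neg u).exp).const_mul κ
    have h2 : κ * (Real.exp (-u) * (-1)) = -(κ * Real.exp (-u)) := by ring
    rw [h2] at h1
    exact h1.hasDerivWithinAt
  have hinj : InjOn (fun u : ℝ => κ * Real.exp (-u)) S := by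
    intro u _ v _ huv
    have h1 : κ * Real.exp (-u) = κ * Real.exp (-v) := huv
    have h2 := Real.exp_injective (mul_left_cancel₀ hκ.ne' h1)
    linarith
  have key := lintegral_image_eq_lintegral_abs_deriv_mul hSm hder hinj
    (fun ρ => ENNReal.ofReal (ρ ^ (2 * σ - 1) * h ρ))
  rw [himg] at key
  rw [key, ← lintegral_const_mul']
  · refine setLIntegral_congr_fun hSm fun u _ => ?_
    show ENNReal.ofReal |-(κ * Real.exp (-u))| *
      ENNReal.ofReal ((κ * Real.exp (-u)) ^ (2 * σ - 1) * h (κ * Real.exp (-u))) = _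
    have h0 : 0 < κ * Real.exp (-u) := by positivity
    rw [abs_neg, abs_of_pos h0, ← ENNReal.ofReal_mul h0.le, ← ENNReal.ofReal_mul (hh _),
      ← ENNReal.ofReal_mul (by positivity)]
    congr 1
    have h1 : κ * Real.exp (-u) * (κ * Real.exp (-u)) ^ (2 * σ - 1) =
        κ ^ (2 * σ) * Real.exp (-(2 * σ) * u) := by
      have h2 : κ * Real.exp (-u) * (κ * Real.exp (-u)) ^ (2 * σ - 1) =
          (κ * Real.exp (-u)) ^ (2 * σ) := by
        rw [Real.rpow_sub h0, Real.rpow_one]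
        field_simp
      rw [h2, Real.mul_rpow hκ.le (Real.exp_pos _).le, ← Real.exp_mul]
      congr 2
      ring
    calc κ * Real.exp (-u) * ((κ * Real.exp (-u)) ^ (2 * σ - 1) * h (κ * Real.exp (-u))) =
        (κ * Real.exp (-u) * (κ * Real.exp (-u)) ^ (2 * σ - 1)) * h (κ * Real.exp (-u)) := by ring
      _ = _ := by rw [h1]; ring
  · exact ENNReal.ofReal_ne_top

/-- the resonance integral is large -/
lemma FT_ge (w : Fin r → ℝ) {σ T : ℝ} (hσ : 0 < σ) (hT : 2 ≤ T) :
    ENNReal.ofReal (T ^ (2 * σ)) ≤ ENNReal.ofReal (2 ^ (2 * σ + 1)) * FT w σ T := by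
  have hT0 : 0 < T := by linarith
  have h1 : ENNReal.ofReal ((T / 2) ^ (2 * σ) / T * (T / 2)) ≤ FT w σ T := by
    calc ENNReal.ofReal ((T / 2) ^ (2 * σ) / T * (T / 2)) =
        ∫⁻ _ρ in Ioc (T / 2) T, ENNReal.ofReal ((T / 2) ^ (2 * σ) / T) := by
          rw [setLIntegral_const, Real.volume_Ioc, ← ENNReal.ofReal_mul (by positivity)]
          congr 1
          ring
      _ ≤ ∫⁻ ρ in Ioc (T / 2) T, ENNReal.ofReal (ρ ^ (2 * σ - 1) * PP w T ρ) := by
          refine setLIntegral_mono' measurableSet_Ioc fun ρ hρ => ENNReal.ofReal_le_ofReal ?_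
          have hρ0 : 0 < ρ := by linarith [hρ.1]
          have h2 := one_le_PP (w := w) hρ0 hρ.2
          have h3 : (T / 2) ^ (2 * σ) / T ≤ ρ ^ (2 * σ - 1) := by
            rw [Real.rpow_sub hρ0, Real.rpow_one]
            have h4 : (T / 2) ^ (2 * σ) ≤ ρ ^ (2 * σ) :=
              Real.rpow_le_rpow (by positivity) hρ.1.le (by positivity)
            have := hρ.2
            gcongr
          have h5 : 0 ≤ ρ ^ (2 * σ - 1) := by positivity
          nlinarith
      _ ≤ _ := lintegral_mono_set (Ioc_subset_Ioc_left (by linarith))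
  have h2 : T ^ (2 * σ) = 2 ^ (2 * σ + 1) * ((T / 2) ^ (2 * σ) / T * (T / 2)) := by
    rw [Real.div_rpow hT0.le (by norm_num), Real.rpow_add (by norm_num), Real.rpow_one]
    field_simp
  rw [h2, ENNReal.ofReal_mul (by positivity)]
  gcongr

lemma FT_lt_top (w : Fin r → ℝ) {σ T : ℝ} (hσ : 0 < σ) (hT : 1 ≤ T) : FT w σ T < ⊤ := by
  have hT0 : 0 < T := by linarith
  calc FT w σ T ≤ ∫⁻ _ρ in Ioc 1 T, ENNReal.ofReal (T ^ (2 * σ) * (T ^ 2) ^ r) := by
        refine setLIntegral_mono' measurableSet_Ioc fun ρ hρ => ENNReal.ofReal_le_ofReal ?_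
        have hρ0 : 0 < ρ := by linarith [hρ.1]
        have h1 : ρ ^ (2 * σ - 1) ≤ T ^ (2 * σ) := by
          calc ρ ^ (2 * σ - 1) ≤ ρ ^ (2 * σ) :=
                Real.rpow_le_rpow_of_exponent_le hρ.1.le (by linarith)
            _ ≤ _ := Real.rpow_le_rpow hρ0.le hρ.2 (by positivity)
        have h2 : PP w T ρ ≤ (T ^ 2) ^ r := by
          unfold PP
          calc _ ≤ ∏ _j : Fin r, T ^ 2 := by
                refine Finset.prod_le_prod (fun _ _ => by positivity) fun j _ => ?_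
                have h3 : 1 / T ≤ max (nd (ρ * w j)) (ρ / T) := by
                  refine le_trans ?_ (le_max_right _ _)
                  have := hρ.1.le
                  gcongr
                calc ((max (nd (ρ * w j)) (ρ / T)) ^ 2)⁻¹ ≤ ((1 / T) ^ 2)⁻¹ :=
                      inv_anti₀ (by positivity) (pow_le_pow_left₀ (by positivity) h3 2)
                  _ = T ^ 2 := by simp
            _ = _ := by rw [Finset.prod_const, Finset.card_univ, Fintype.card_fin]
        have := PP_nonneg w T ρ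
        gcongr
    _ < ⊤ := by
        rw [setLIntegral_const, Real.volume_Ioc]
        exact ENNReal.mul_lt_top ENNReal.ofReal_lt_top ENNReal.ofReal_lt_top

/-- doubling -/
lemma FT_dbl (w : Fin r → ℝ) {σ : ℝ} (hσ : 0 < σ) {A : ℝ} (hA : 1 ≤ A) :
    ∃ C : ℝ, 0 ≤ C ∧ ∀ T : ℝ, 2 ≤ T → FT w σ (A * T) ≤ ENNReal.ofReal C * FT w σ T := by
  have hA0 : 0 < A := by linarith
  refine ⟨A ^ (2 * r) + A ^ (2 * r) * A ^ (2 * σ) * A * 2 ^ (2 * σ + 1), by positivity,
    fun T hT => ?_⟩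
  have hT0 : 0 < T := by linarith
  have hsub : Ioc 1 (A * T) ⊆ Ioc 1 T ∪ Ioc T (A * T) := by
    intro ρ hρ
    rcases le_or_gt ρ T with h | h
    · exact Or.inl ⟨hρ.1, h⟩
    · exact Or.inr ⟨h, hρ.2⟩
  have h1 : ∫⁻ ρ in Ioc 1 T, ENNReal.ofReal (ρ ^ (2 * σ - 1) * PP w (A * T) ρ) ≤
      ENNReal.ofReal (A ^ (2 * r)) * FT w σ T := by
    unfold FT
    rw [← lintegral_const_mul' _ _ ENNReal.ofReal_ne_top]
    refine setLIntegral_mono' measurableSet_Ioc fun ρ hρ => ?_
    rw [← ENNReal.ofReal_mul (by positivity)]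
    apply ENNReal.ofReal_le_ofReal
    have hρ0 : 0 < ρ := by linarith [hρ.1]
    have h2 : PP w (A * T) ρ ≤ A ^ (2 * r) * PP w T ρ := by
      unfold PP
      refine prod_cmp hA0 (fun j => mx_pos hT0 hρ0 _) fun j => ?_
      refine max_le ?_ ?_
      · have h3 := le_max_left (nd (ρ * w j)) (ρ / (A * T))
        have h4 := nd_nonneg (ρ * w j)
        nlinarith
      · have h3 := le_max_right (nd (ρ * w j)) (ρ / (A * T))
        calc ρ / T = A * (ρ / (A * T)) := by field_simp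
          _ ≤ _ := by gcongr
    calc _ ≤ ρ ^ (2 * σ - 1) * (A ^ (2 * r) * PP w T ρ) := by gcongr
      _ = _ := by ring
  have h2 : ∫⁻ ρ in Ioc T (A * T), ENNReal.ofReal (ρ ^ (2 * σ - 1) * PP w (A * T) ρ) ≤
      ENNReal.ofReal (A ^ (2 * r) * A ^ (2 * σ) * A) * ENNReal.ofReal (T ^ (2 * σ)) := by
    calc _ ≤ ∫⁻ _ρ in Ioc T (A * T), ENNReal.ofReal ((A * T) ^ (2 * σ) / T * A ^ (2 * r)) := by
          refine setLIntegral_mono' measurableSet_Ioc fun ρ hρ => ENNReal.ofReal_le_ofReal ?_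
          have hρ0 : 0 < ρ := by linarith [hρ.1]
          have h3 : ρ ^ (2 * σ - 1) ≤ (A * T) ^ (2 * σ) / T := by
            rw [Real.rpow_sub hρ0, Real.rpow_one]
            have h4 : ρ ^ (2 * σ) ≤ (A * T) ^ (2 * σ) :=
              Real.rpow_le_rpow hρ0.le hρ.2 (by positivity)
            have := hρ.1.le
            gcongr
          have h4 : PP w (A * T) ρ ≤ A ^ (2 * r) := by
            unfold PP
            calc _ ≤ ∏ _j : Fin r, A ^ 2 := by
                  refine Finset.prod_le_prod (fun _ _ => by positivity) fun j _ => ?_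
                  have h5 : 1 / A ≤ max (nd (ρ * w j)) (ρ / (A * T)) := by
                    refine le_trans ?_ (le_max_right _ _)
                    rw [div_le_div_iff₀ hA0 (by positivity)]
                    nlinarith [hρ.1]
                  calc ((max (nd (ρ * w j)) (ρ / (A * T))) ^ 2)⁻¹ ≤ ((1 / A) ^ 2)⁻¹ :=
                        inv_anti₀ (by positivity) (pow_le_pow_left₀ (by positivity) h5 2)
                    _ = A ^ 2 := by simp
              _ = _ := by
                  rw [Finset.prod_const, Finset.card_univ, Fintype.card_fin, ← pow_mul]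
          have := PP_nonneg w (A * T) ρ
          gcongr
      _ ≤ _ := by
          rw [setLIntegral_const, Real.volume_Ioc, ← ENNReal.ofReal_mul (by positivity),
            ← ENNReal.ofReal_mul (by positivity)]
          apply ENNReal.ofReal_le_ofReal
          rw [Real.mul_rpow hA0.le hT0.le]
          calc A ^ (2 * σ) * T ^ (2 * σ) / T * A ^ (2 * r) * (A * T - T) ≤
              A ^ (2 * σ) * T ^ (2 * σ) / T * A ^ (2 * r) * (A * T) := by
                gcongr
                linarith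
            _ = _ := by field_simp
  have h3 := FT_ge w hσ hT
  calc FT w σ (A * T) ≤ ∫⁻ ρ in Ioc 1 T ∪ Ioc T (A * T),
        ENNReal.ofReal (ρ ^ (2 * σ - 1) * PP w (A * T) ρ) := lintegral_mono_set hsub
    _ ≤ (∫⁻ ρ in Ioc 1 T, ENNReal.ofReal (ρ ^ (2 * σ - 1) * PP w (A * T) ρ)) +
        ∫⁻ ρ in Ioc T (A * T), ENNReal.ofReal (ρ ^ (2 * σ - 1) * PP w (A * T) ρ) :=
        lintegral_union_le _ _ _
    _ ≤ ENNReal.ofReal (A ^ (2 * r)) * FT w σ T +
        ENNReal.ofReal (A ^ (2 * r) * A ^ (2 * σ) * A) *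
          (ENNReal.ofReal (2 ^ (2 * σ + 1)) * FT w σ T) :=
        add_le_add h1 (h2.trans (mul_le_mul_right h3 _))
    _ = _ := by
        rw [ENNReal.ofReal_add (by positivity) (by positivity), add_mul,
          ENNReal.ofReal_mul (p := A ^ (2 * r) * A ^ (2 * σ) * A) (by positivity), mul_assoc
          (ENNReal.ofReal (A ^ (2 * r) * A ^ (2 * σ) * A))]

end Pool.Agent.H312.Ex
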