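import Pool.Agent.H312.Ex.Two

set_option autoImplicit false

/-!
# The weighted mean square and the resonance integral
-/

namespace Pool.Agent.H312.Ex

open Finset Filter Topology MeasureTheory Complex Set
open Pool.Agent.H131R5.BZ Pool.Agent.Y930.Bz Pool.Agent.Y616.BM Pool.Agent.H312.Barnes
open Pool.Agent.H312.Sh

variable {r : ℕ} {a : ℝ} {w : Fin r → ℝ} {c : ℕ → ℂ}

/-- the weighted mean square -/
noncomputable def WT {r : ℕ} (a : ℝ) (w : Fin r → ℝ) (c : ℕ → ℂ) (σ T : ℝ) : ENNReal :=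
  ∫⁻ t in Ioc (1 : ℝ) T, ENNReal.ofReal (t ^ (2 * σ - 1) * ‖FF a w c ((σ : ℂ) + t * I)‖ ^ 2)

theorem WT_le_FT (ha : 0 < a) (hw : ∀ j, 0 < w j) (hc : Tay a w c) {σ : ℝ} (hσ : 0 < σ) :
    ∃ C : ℝ, 0 ≤ C ∧ ∀ T : ℝ, 2 ≤ T → WT a w c σ T ≤ ENNReal.ofReal C * FT w σ T := by
  obtain ⟨C, hC, h⟩ := ET_le_FT ha hw hc hσ
  refine ⟨Real.exp 2 * C, by positivity, fun T hT => ?_⟩
  have hT0 : 0 < T := by linarith
  calc WT a w c σ T ≤ ∫⁻ t in Ioc (1 : ℝ) T, ENNReal.ofReal (Real.exp 2) *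
        ENNReal.ofReal (kk σ T t * ‖FF a w c ((σ : ℂ) + t * I)‖ ^ 2) := by
        refine setLIntegral_mono' measurableSet_Ioc fun t ht => ?_
        rw [← ENNReal.ofReal_mul (Real.exp_pos _).le]
        apply ENNReal.ofReal_le_ofReal
        have ht0 : 0 < t := by linarith [ht.1]
        have h1 : 1 ≤ Real.exp 2 * Real.exp (-(2 / T) * t) := by
          rw [← Real.exp_add]
          apply Real.one_le_exp
          have : 2 / T * t ≤ 2 := by
            rw [div_mul_eq_mul_div, div_le_iff₀ hT0]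
            linarith [ht.2]
          linarith
        unfold kk
        set X : ℝ := ‖FF a w c ((σ : ℂ) + t * I)‖ ^ 2 with hX
        have hX0 : 0 ≤ X := by positivity
        calc t ^ (2 * σ - 1) * X = (t ^ (2 * σ - 1) * X) * 1 := (mul_one _).symm
          _ ≤ (t ^ (2 * σ - 1) * X) * (Real.exp 2 * Real.exp (-(2 / T) * t)) := by gcongr
          _ = _ := by ring
    _ = ENNReal.ofReal (Real.exp 2) * ∫⁻ t in Ioc (1 : ℝ) T,
          ENNReal.ofReal (kk σ T t * ‖FF a w c ((σ : ℂ) + t * I)‖ ^ 2) :=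
        lintegral_const_mul' _ _ ENNReal.ofReal_ne_top
    _ ≤ ENNReal.ofReal (Real.exp 2) * ET a w c σ T :=
        mul_le_mul_right (lintegral_mono_set Set.Ioc_subset_Ioi_self) _
    _ ≤ ENNReal.ofReal (Real.exp 2) * (ENNReal.ofReal C * FT w σ T) :=
        mul_le_mul_right (h T hT) _
    _ = _ := by rw [← mul_assoc, ← ENNReal.ofReal_mul (Real.exp_pos _).le]

lemma absorb {x y : ENNReal} (hx : x ≠ ⊤) (h : x ≤ y + ENNReal.ofReal (1 / 2) * x) :
    x ≤ 2 * y := by
  have e1 : x = ENNReal.ofReal (1 / 2) * x + ENNReal.ofReal (1 / 2) * x := by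
    rw [← add_mul, ← ENNReal.ofReal_add (by norm_num) (by norm_num)]
    norm_num
  have h1 : ENNReal.ofReal (1 / 2) * x ≠ ⊤ := ENNReal.mul_ne_top ENNReal.ofReal_ne_top hx
  have h2 : ENNReal.ofReal (1 / 2) * x ≤ y := by
    have h3 : ENNReal.ofReal (1 / 2) * x + ENNReal.ofReal (1 / 2) * x ≤
        y + ENNReal.ofReal (1 / 2) * x := by rw [← e1]; exact h
    exact (ENNReal.add_le_add_iff_right h1).1 h3
  calc x = ENNReal.ofReal (1 / 2) * x + ENNReal.ofReal (1 / 2) * x := e1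
    _ ≤ y + y := add_le_add h2 h2
    _ = 2 * y := (two_mul y).symm

/-- the tail of the smooth mean square -/
lemma ET_split (a : ℝ) (w : Fin r → ℝ) (c : ℕ → ℂ) (σ : ℝ) {B T : ℝ} (hB : 1 ≤ B) (hT : 2 ≤ T) :
    ET a w c σ T ≤ WT a w c σ (B * T) + ENNReal.ofReal (Real.exp (-B)) * ET a w c σ (2 * T) := by
  have hT0 : 0 < T := by linarith
  have hBT : 1 ≤ B * T := by nlinarith
  have hsub : Ioi (1 : ℝ) ⊆ Ioc 1 (B * T) ∪ Ioi (B * T) := by
    intro t ht
    rcases le_or_gt t (B * T) with h | h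
    · exact Or.inl ⟨ht, h⟩
    · exact Or.inr h
  calc ET a w c σ T ≤ ∫⁻ t in Ioc 1 (B * T) ∪ Ioi (B * T),
        ENNReal.ofReal (kk σ T t * ‖FF a w c ((σ : ℂ) + t * I)‖ ^ 2) := lintegral_mono_set hsub
    _ ≤ (∫⁻ t in Ioc 1 (B * T), ENNReal.ofReal (kk σ T t * ‖FF a w c ((σ : ℂ) + t * I)‖ ^ 2)) +
        ∫⁻ t in Ioi (B * T), ENNReal.ofReal (kk σ T t * ‖FF a w c ((σ : ℂ) + t * I)‖ ^ 2) :=
        lintegral_union_le _ _ _
    _ ≤ WT a w c σ (B * T) + ∫⁻ t in Ioi (B * T), ENNReal.ofReal (Real.exp (-B)) *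
        ENNReal.ofReal (kk σ (2 * T) t * ‖FF a w c ((σ : ℂ) + t * I)‖ ^ 2) := by
        refine add_le_add (setLIntegral_mono' measurableSet_Ioc fun t ht => ?_)
          (setLIntegral_mono' measurableSet_Ioi fun t ht => ?_)
        · apply ENNReal.ofReal_le_ofReal
          have ht0 : 0 < t := by linarith [ht.1]
          refine mul_le_mul_of_nonneg_right ?_ (by positivity)
          unfold kk
          have h1 : Real.exp (-(2 / T) * t) ≤ 1 := by
            apply Real.exp_le_one_iff.2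
            have : 0 < 2 / T * t := by positivity
            linarith
          have h2 : 0 ≤ t ^ (2 * σ - 1) := by positivity
          nlinarith
        · have ht' : B * T < t := ht
          have ht0 : 0 < t := by linarith
          rw [← ENNReal.ofReal_mul (Real.exp_pos _).le]
          apply ENNReal.ofReal_le_ofReal
          rw [← mul_assoc]
          refine mul_le_mul_of_nonneg_right ?_ (by positivity)
          unfold kk
          have h1 : Real.exp (-(2 / T) * t) ≤ Real.exp (-B) * Real.exp (-(2 / (2 * T)) * t) := by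
            rw [← Real.exp_add]
            apply Real.exp_le_exp.2
            have h2 : B ≤ t / T := by rw [le_div_iff₀ hT0]; exact ht'.le
            have h3 : 2 / T * t = 2 * (t / T) := by ring
            have h4 : 2 / (2 * T) * t = t / T := by field_simp
            rw [neg_mul, neg_mul, h3, h4]
            linarith
          have h2 : 0 ≤ t ^ (2 * σ - 1) := by positivity
          calc t ^ (2 * σ - 1) * Real.exp (-(2 / T) * t) ≤
              t ^ (2 * σ - 1) * (Real.exp (-B) * Real.exp (-(2 / (2 * T)) * t)) := by gcongr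
            _ = _ := by ring
    _ = WT a w c σ (B * T) + ENNReal.ofReal (Real.exp (-B)) * ∫⁻ t in Ioi (B * T),
        ENNReal.ofReal (kk σ (2 * T) t * ‖FF a w c ((σ : ℂ) + t * I)‖ ^ 2) := by
        rw [lintegral_const_mul' _ _ ENNReal.ofReal_ne_top]
    _ ≤ _ := add_le_add le_rfl (mul_le_mul_right (lintegral_mono_set (Ioi_subset_Ioi hBT)) _)

theorem FT_le_WT (ha : 0 < a) (hw : ∀ j, 0 < w j) (hc : Tay a w c) {σ : ℝ} (hσ : 0 < σ) :
    ∃ C T₀ : ℝ, 0 ≤ C ∧ 2 ≤ T₀ ∧ ∀ T : ℝ, T₀ ≤ T →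
      FT w σ T ≤ ENNReal.ofReal C * WT a w c σ T := by
  obtain ⟨C₁, hC₁, h1⟩ := ET_le_FT ha hw hc hσ
  obtain ⟨C₂, p, hC₂, hp0, hpσ, h2⟩ := FT_le_ET ha hw hc hσ
  obtain ⟨C₃, hC₃, h3⟩ := FT_dbl w hσ (A := 2) one_le_two
  set X : ℝ := C₂ * (C₁ * C₃) with hX
  have hX0 : 0 ≤ X := by positivity
  set B : ℝ := max 1 (Real.log (4 * X + 1)) with hB
  have hB1 : 1 ≤ B := le_max_left _ _
  have hB0 : 0 < B := by linarith
  have hXB : C₂ * (Real.exp (-B) * (C₁ * C₃)) ≤ 1 / 4 := by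
    have h4 : Real.exp (-B) ≤ (4 * X + 1)⁻¹ := by
      rw [Real.exp_neg]
      refine inv_anti₀ (by positivity) ?_
      calc 4 * X + 1 = Real.exp (Real.log (4 * X + 1)) := (Real.exp_log (by positivity)).symm
        _ ≤ _ := Real.exp_le_exp.2 (le_max_right _ _)
    calc C₂ * (Real.exp (-B) * (C₁ * C₃)) = Real.exp (-B) * X := by rw [hX]; ring
      _ ≤ (4 * X + 1)⁻¹ * X := by gcongr
      _ ≤ 1 / 4 := by
          rw [inv_mul_le_iff₀ (by positivity)]
          linarith
  obtain ⟨C₄, hC₄, h4⟩ := FT_dbl w hσ hB1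
  have htend : Tendsto (fun T : ℝ => C₂ * 2 ^ (2 * σ + 1) * T ^ (-(2 * σ - p))) atTop (𝓝 0) := by
    have := (tendsto_rpow_neg_atTop (y := 2 * σ - p) (by linarith)).const_mul
      (C₂ * 2 ^ (2 * σ + 1))
    rwa [mul_zero] at this
  obtain ⟨T₁, hT₁⟩ := eventually_atTop.1 (htend.eventually (ge_mem_nhds (by norm_num :
    (0 : ℝ) < 1 / 4)))
  have hmain : ∀ T : ℝ, max 2 T₁ ≤ T →
      FT w σ T ≤ 2 * (ENNReal.ofReal C₂ * WT a w c σ (B * T)) := by
    intro T hT
    have hT2 : 2 ≤ T := (le_max_left _ _).trans hT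
    have hT0 : 0 < T := by linarith
    have hsm := hT₁ T ((le_max_right _ _).trans hT)
    apply absorb (FT_lt_top w hσ (by linarith)).ne
    have e1 : ENNReal.ofReal (C₂ * T ^ p) ≤ ENNReal.ofReal (1 / 4) * FT w σ T := by
      have e2 : C₂ * T ^ p = C₂ * T ^ (-(2 * σ - p)) * T ^ (2 * σ) := by
        rw [mul_assoc, ← Real.rpow_add hT0]
        congr 2
        ring
      calc ENNReal.ofReal (C₂ * T ^ p) = ENNReal.ofReal (C₂ * T ^ (-(2 * σ - p))) *
            ENNReal.ofReal (T ^ (2 * σ)) := by rw [e2, ENNReal.ofReal_mul (by positivity)]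
        _ ≤ ENNReal.ofReal (C₂ * T ^ (-(2 * σ - p))) *
            (ENNReal.ofReal (2 ^ (2 * σ + 1)) * FT w σ T) := mul_le_mul_right (FT_ge w hσ hT2) _
        _ = ENNReal.ofReal (C₂ * T ^ (-(2 * σ - p)) * 2 ^ (2 * σ + 1)) * FT w σ T := by
            rw [← mul_assoc, ← ENNReal.ofReal_mul (by positivity)]
        _ ≤ _ := by
            refine mul_le_mul_left (ENNReal.ofReal_le_ofReal ?_) _
            calc _ = C₂ * 2 ^ (2 * σ + 1) * T ^ (-(2 * σ - p)) := by ring
              _ ≤ _ := hsm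
    have e3 : ENNReal.ofReal C₂ * ET a w c σ T ≤ ENNReal.ofReal C₂ * WT a w c σ (B * T) +
        ENNReal.ofReal (1 / 4) * FT w σ T := by
      calc ENNReal.ofReal C₂ * ET a w c σ T ≤ ENNReal.ofReal C₂ * (WT a w c σ (B * T) +
            ENNReal.ofReal (Real.exp (-B)) * (ENNReal.ofReal C₁ *
              (ENNReal.ofReal C₃ * FT w σ T))) := by
            refine mul_le_mul_right ((ET_split a w c σ hB1 hT2).trans ?_) _
            refine add_le_add le_rfl (mul_le_mul_right ((h1 (2 * T) (by linarith)).trans ?_) _)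
            exact mul_le_mul_right (h3 T hT2) _
        _ = ENNReal.ofReal C₂ * WT a w c σ (B * T) +
            ENNReal.ofReal (C₂ * (Real.exp (-B) * (C₁ * C₃))) * FT w σ T := by
            rw [ENNReal.ofReal_mul hC₂, ENNReal.ofReal_mul (Real.exp_pos _).le,
              ENNReal.ofReal_mul hC₁]
            ring
        _ ≤ _ := add_le_add le_rfl (mul_le_mul_left (ENNReal.ofReal_le_ofReal hXB) _)
    calc FT w σ T ≤ _ := h2 T hT2
      _ ≤ (ENNReal.ofReal C₂ * WT a w c σ (B * T) + ENNReal.ofReal (1 / 4) * FT w σ T) +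
          ENNReal.ofReal (1 / 4) * FT w σ T := add_le_add e3 e1
      _ = _ := by
          rw [add_assoc, ← add_mul, ← ENNReal.ofReal_add (by norm_num) (by norm_num)]
          norm_num
  refine ⟨C₄ * (2 * C₂), B * max 2 T₁, by positivity, ?_, fun T hT => ?_⟩
  · have : 2 ≤ max 2 T₁ := le_max_left _ _
    nlinarith
  · have hT' : max 2 T₁ ≤ T / B := by
      rw [le_div_iff₀ hB0]; linarith
    have e1 : B * (T / B) = T := by field_simp
    have e2 : ENNReal.ofReal 2 = 2 := by simp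
    calc FT w σ T = FT w σ (B * (T / B)) := by rw [e1]
      _ ≤ ENNReal.ofReal C₄ * FT w σ (T / B) := h4 _ ((le_max_left _ _).trans hT')
      _ ≤ ENNReal.ofReal C₄ * (2 * (ENNReal.ofReal C₂ * WT a w c σ (B * (T / B)))) :=
          mul_le_mul_right (hmain _ hT') _
      _ = _ := by
          rw [e1, ENNReal.ofReal_mul hC₄, ENNReal.ofReal_mul (by norm_num), e2]
          ring

end Pool.Agent.H312.Ex
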