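import Pool.Agent.H312.Ex.Unw2

set_option autoImplicit false

/-!
# The criterion with logarithms
-/

namespace Pool.Agent.H312.Ex

open Finset Filter Topology MeasureTheory Complex Set Asymptotics
open Pool.Agent.H131R5.BZ Pool.Agent.Y930.Bz Pool.Agent.Y616.BM Pool.Agent.H312.Barnes
open Pool.Agent.H312.Sh

variable {r : ℕ} {a : ℝ} {w : Fin r → ℝ} {Z : ℂ → ℂ}

lemma resR_nonneg (w : Fin r → ℝ) (σ : ℝ) {T : ℝ} (hT : 1 ≤ T) : 0 ≤ resR w σ T := by
  rw [resR_eq w σ hT]
  exact ENNReal.toReal_nonneg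

/-- a lower bound for the mean square -/
theorem low_i (ha : 0 < a) (hw : ∀ j, 0 < w j)
    (hZ : ∀ s ∈ Om r, DifferentiableAt ℂ Z s)
    (hs : ∀ s : ℂ, (r : ℝ) < s.re → Z s = ∑' m : Fin r → ℕ, ((lam a w m : ℝ) : ℂ) ^ (-s))
    {σ : ℝ} (hσ : 1 / 2 < σ) :
    (fun T : ℝ => T ^ (1 - 2 * σ) * resR w σ T) =O[atTop]
      fun T : ℝ => ∫ t in (1 : ℝ)..T, ‖Z ((σ : ℂ) + (t : ℂ) * I)‖ ^ 2 := by
  have h1 := (theta_i ha hw hZ hs hσ).2
  refine IsBigO.trans ?_ h1
  obtain ⟨C, hC, h2⟩ := FT_le_PhT w (by linarith : 0 < σ)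
  refine IsBigO.of_bound C ?_
  filter_upwards [eventually_ge_atTop (4 : ℝ)] with T hT
  have hT1 : 1 ≤ T := by linarith
  have hT0 : 0 < T := by linarith
  have hσ0 : 0 < σ := by linarith
  have h3 := h2 T hT
  have h4 := ENNReal.toReal_mono
    (ENNReal.mul_ne_top ENNReal.ofReal_ne_top (PhT_ne_top w hσ0 hT1)) h3
  rw [ENNReal.toReal_mul, ENNReal.toReal_mul, ENNReal.toReal_ofReal (by positivity),
    ENNReal.toReal_ofReal hC, ← resR_eq w σ hT1, ← PhR_eq w hσ0 hT1] at h4
  have h5 := resR_nonneg w σ hT1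
  rw [Real.norm_of_nonneg (by positivity)]
  refine h4.trans ?_
  gcongr
  exact Real.le_norm_self _

theorem crit (ha : 0 < a) (hw : ∀ j, 0 < w j)
    (hZ : ∀ s ∈ Om r, DifferentiableAt ℂ Z s)
    (hs : ∀ s : ℂ, (r : ℝ) < s.re → Z s = ∑' m : Fin r → ℕ, ((lam a w m : ℝ) : ℂ) ^ (-s))
    {σ : ℝ} (hσ : 1 / 2 < σ) {θ β : ℝ} (hθ : 0 < θ) (hβ : 0 ≤ β) :
    ((fun T : ℝ => ∫ t in (1 : ℝ)..T, ‖Z ((σ : ℂ) + (t : ℂ) * I)‖ ^ 2) =O[atTop]
      fun T : ℝ => T ^ θ * (Real.log T) ^ β) ↔
    ((fun T : ℝ => resR w σ T) =O[atTop]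
      fun T : ℝ => T ^ (2 * σ - 1 + θ) * (Real.log T) ^ β) := by
  have hσ0 : 0 < σ := by linarith
  constructor
  · intro h
    have h1 := (low_i ha hw hZ hs hσ).trans h
    have h2 := (isBigO_refl (fun T : ℝ => T ^ (2 * σ - 1)) atTop).mul h1
    refine (h2.congr' ?_ ?_)
    · filter_upwards [eventually_gt_atTop (0 : ℝ)] with T hT
      have e : T ^ (2 * σ - 1) * T ^ (1 - 2 * σ) = 1 := by
        rw [← Real.rpow_add hT]
        have : 2 * σ - 1 + (1 - 2 * σ) = 0 := by ring
        rw [this, Real.rpow_zero]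
      rw [← mul_assoc, e, one_mul]
    · filter_upwards [eventually_gt_atTop (0 : ℝ)] with T hT
      rw [← mul_assoc, ← Real.rpow_add hT]
  · intro h
    refine (theta_i ha hw hZ hs hσ).1.trans ?_
    obtain ⟨K, hK, hb⟩ := h.exists_pos
    obtain ⟨T₁, hT₁⟩ := eventually_atTop.1 hb.bound
    set T₂ : ℝ := max T₁ (Real.exp 1) with hT₂
    have he : 1 < Real.exp 1 := Real.one_lt_exp_iff.2 one_pos
    have hT₂1 : 1 < T₂ := he.trans_le (le_max_right _ _)
    have hT₂0 : 0 < T₂ := by linarith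
    refine IsBigO.of_bound ((PhT w σ T₂).toReal + K / θ) ?_
    filter_upwards [eventually_ge_atTop T₂] with T hT
    have hT1 : 1 ≤ T := by linarith
    have hT0 : 0 < T := by linarith
    have hlogT : 1 ≤ Real.log T := by
      rw [Real.le_log_iff_exp_le hT0]
      exact (le_max_right _ _).trans hT
    have hLT : 1 ≤ (Real.log T) ^ β := Real.one_le_rpow hlogT hβ
    have hTθ : 1 ≤ T ^ θ := Real.one_le_rpow hT1 hθ.le
    have hsub : Ioc 1 T ⊆ Ioc 1 T₂ ∪ Ioc T₂ T := by
      intro τ hτ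
      rcases le_or_gt τ T₂ with h | h
      · exact Or.inl ⟨hτ.1, h⟩
      · exact Or.inr ⟨h, hτ.2⟩
    have h3 : ∫⁻ τ in Ioc T₂ T, ENNReal.ofReal (τ ^ (-(2 * σ))) * FT w σ τ ≤
        ENNReal.ofReal (K / θ * (T ^ θ * (Real.log T) ^ β)) := by
      calc _ ≤ ∫⁻ τ in Ioc T₂ T, ENNReal.ofReal (K * (Real.log T) ^ β) *
            ENNReal.ofReal (τ ^ (θ - 1)) := by
            refine setLIntegral_mono' measurableSet_Ioc fun τ hτ => ?_
            have hτ1 : 1 < τ := hT₂1.trans hτ.1
            have hτ0 : 0 < τ := by linarith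
            have hlogτ : 0 ≤ Real.log τ := Real.log_nonneg hτ1.le
            have h4 := hT₁ τ ((le_max_left _ _).trans hτ.1.le)
            have h5 := resR_nonneg w σ hτ1.le
            rw [Real.norm_of_nonneg h5, Real.norm_of_nonneg (by positivity)] at h4
            have h6 : (Real.log τ) ^ β ≤ (Real.log T) ^ β :=
              Real.rpow_le_rpow hlogτ (Real.log_le_log hτ0 hτ.2) hβ
            have h7 : FT w σ τ = ENNReal.ofReal (resR w σ τ) := by
              rw [resR_eq w σ hτ1.le, ENNReal.ofReal_toReal (FT_lt_top w hσ0 hτ1.le).ne]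
            rw [h7, ← ENNReal.ofReal_mul (by positivity), ← ENNReal.ofReal_mul (by positivity)]
            apply ENNReal.ofReal_le_ofReal
            have e : τ ^ (-(2 * σ)) * τ ^ (2 * σ - 1 + θ) = τ ^ (θ - 1) := by
              rw [← Real.rpow_add hτ0]
              congr 1
              ring
            calc τ ^ (-(2 * σ)) * resR w σ τ ≤
                τ ^ (-(2 * σ)) * (K * (τ ^ (2 * σ - 1 + θ) * (Real.log τ) ^ β)) := by gcongr
              _ = K * (Real.log τ) ^ β * (τ ^ (-(2 * σ)) * τ ^ (2 * σ - 1 + θ)) := by ring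
              _ ≤ K * (Real.log T) ^ β * (τ ^ (-(2 * σ)) * τ ^ (2 * σ - 1 + θ)) := by gcongr
              _ = _ := by rw [e]
        _ ≤ ∫⁻ τ in Ioc 1 T, ENNReal.ofReal (K * (Real.log T) ^ β) *
            ENNReal.ofReal (τ ^ (θ - 1)) :=
            lintegral_mono_set (Set.Ioc_subset_Ioc_left hT₂1.le)
        _ = ENNReal.ofReal (K * (Real.log T) ^ β) *
            ENNReal.ofReal (∫ τ in Ioc 1 T, τ ^ (θ - 1)) := by
            rw [lintegral_const_mul' _ _ ENNReal.ofReal_ne_top,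
              ofReal_integral_eq_lintegral_ofReal]
            · have h8 : IntervalIntegrable (fun τ : ℝ => τ ^ (θ - 1)) volume 1 T :=
                intervalIntegral.intervalIntegrable_rpow' (by linarith)
              exact (intervalIntegrable_iff_integrableOn_Ioc_of_le hT1).1 h8
            · filter_upwards [self_mem_ae_restrict measurableSet_Ioc] with τ hτ
              have hτ0 : 0 < τ := by linarith [hτ.1]
              positivity
        _ ≤ _ := by
            rw [← intervalIntegral.integral_of_le hT1, integral_rpow (Or.inl (by linarith)),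
              ← ENNReal.ofReal_mul (by positivity)]
            apply ENNReal.ofReal_le_ofReal
            have e1 : θ - 1 + 1 = θ := by ring
            rw [e1, Real.one_rpow]
            calc K * (Real.log T) ^ β * ((T ^ θ - 1) / θ) ≤
                K * (Real.log T) ^ β * (T ^ θ / θ) := by
                  gcongr
                  linarith
              _ = _ := by ring
    have h4 : PhT w σ T ≤ PhT w σ T₂ + ENNReal.ofReal (K / θ * (T ^ θ * (Real.log T) ^ β)) :=
      (lintegral_mono_set hsub).trans ((lintegral_union_le _ _ _).trans (add_le_add le_rfl h3))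
    have h5 := ENNReal.toReal_mono (ENNReal.add_ne_top.2 ⟨PhT_ne_top w hσ0 hT₂1.le,
      ENNReal.ofReal_ne_top⟩) h4
    rw [ENNReal.toReal_add (PhT_ne_top w hσ0 hT₂1.le) ENNReal.ofReal_ne_top,
      ENNReal.toReal_ofReal (by positivity)] at h5
    have h6 : 0 ≤ (PhT w σ T₂).toReal := ENNReal.toReal_nonneg
    rw [PhR_eq w hσ0 hT1, Real.norm_of_nonneg ENNReal.toReal_nonneg,
      Real.norm_of_nonneg (by positivity)]
    have h7 : 1 ≤ T ^ θ * (Real.log T) ^ β := one_le_mul_of_one_le_of_one_le hTθ hLT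
    calc (PhT w σ T).toReal ≤ (PhT w σ T₂).toReal + K / θ * (T ^ θ * (Real.log T) ^ β) := h5
      _ ≤ (PhT w σ T₂).toReal * (T ^ θ * (Real.log T) ^ β) +
          K / θ * (T ^ θ * (Real.log T) ^ β) := by
          gcongr
          exact le_mul_of_one_le_right h6 h7
      _ = _ := by ring

end Pool.Agent.H312.Ex
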