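import Pool.Agent.H312.Ex.Basic

set_option autoImplicit false

/-!
# The square integral of the kernel on the rotated ray and the resonance integral
-/

namespace Pool.Agent.H312.Ex

open Finset Filter Topology MeasureTheory Complex Set
open Pool.Agent.H131R5.BZ Pool.Agent.Y930.Bz Pool.Agent.Y616.BM Pool.Agent.H312.Barnes
open Pool.Agent.H312.Sh

variable {r : ℕ} {a : ℝ} {w : Fin r → ℝ}

/-- upper bound -/
theorem JJ_FT_le (ha : 0 < a) (hw : ∀ j, 0 < w j) {σ : ℝ} (hσ : 0 < σ) (U : ℝ) :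
    ∃ C : ℝ, 0 ≤ C ∧ ∀ T : ℝ, 2 ≤ T → JJ a w σ U (1 / T) ≤ ENNReal.ofReal C * FT w σ T := by
  have hp := Real.pi_pos
  have hcos1 : 0 < Real.cos 1 := Real.cos_one_pos
  set b₀ : ℝ := Real.cos 1 / (2 * Real.pi) with hb₀
  have hb₀0 : 0 < b₀ := by positivity
  obtain ⟨m, hm⟩ := exists_nat_gt (max 1 (Real.exp U / b₀))
  have hm1 : (1 : ℝ) < m := (le_max_left _ _).trans_lt hm
  have hm2 : Real.exp U / b₀ < m := (le_max_right _ _).trans_lt hm
  have hm0 : (0 : ℝ) < m := by linarith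
  obtain ⟨G, hG, hgf⟩ := gf_lint_scale (σ := 2 * σ) (c := a) (by positivity) ha
  set K : ℝ := ∏ j, (cf (w j))⁻¹ with hK
  have hK0 : 0 < K := Finset.prod_pos fun j _ => inv_pos.2 (cf_pos (hw j))
  set κ₀ : ℝ := m * b₀ with hκ₀
  have hκ₀0 : 0 < κ₀ := by positivity
  set C₁ : ℝ := K * (m : ℝ) ^ (2 * r) with hC₁
  have hC₁0 : 0 < C₁ := by positivity
  refine ⟨C₁ * κ₀ ^ (-(2 * σ)) + C₁ * G * 2 ^ (2 * σ + 1), by positivity, fun T hT => ?_⟩
  have hT0 : 0 < T := by linarith
  have hT1 : 1 ≤ T := by linarith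
  set η : ℝ := 1 / T with hη
  have hη0 : 0 < η := by positivity
  have hη1 : η ≤ 1 := by rw [hη, div_le_one hT0]; exact hT1
  have hηT : η * T = 1 := by rw [hη]; field_simp
  have hsin := sin_ge hη0.le hη1
  have hsin0 : 0 < Real.sin η := by linarith
  set b : ℝ := Real.cos η / (2 * Real.pi) with hb
  have hcη : Real.cos 1 ≤ Real.cos η :=
    Real.cos_le_cos_of_nonneg_of_le_pi hη0.le (by linarith [Real.pi_gt_three]) hη1
  have hbb : b₀ ≤ b := by rw [hb₀, hb]; gcongr
  have hb0 : 0 < b := hb₀0.trans_le hbb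
  have hb1 : b ≤ 1 / 2 := by
    rw [hb, div_le_div_iff₀ (by positivity) (by norm_num)]
    linarith [Real.cos_le_one η, Real.pi_gt_three]
  set κ : ℝ := m * b with hκ
  have hκ0 : 0 < κ := by positivity
  have hκκ : κ₀ ≤ κ := by rw [hκ₀, hκ]; gcongr
  set F : ℝ → ENNReal := fun u => ‖KK a w (zr u η)‖ₑ ^ 2 *
    ENNReal.ofReal (Real.exp (-(2 * σ) * u)) with hF
  have hJ : JJ a w σ U η = ∫⁻ u in Iic U, F u := rfl
  rw [hJ]
  set S : Set ℝ := {u : ℝ | κ * Real.exp (-u) ∈ Ioc 1 T} with hS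
  have hSm : MeasurableSet S := by
    have h1 : Measurable fun u : ℝ => κ * Real.exp (-u) := by fun_prop
    exact h1 measurableSet_Ioc
  set R : Set ℝ := {u : ℝ | T < κ * Real.exp (-u)} with hR
  have hRm : MeasurableSet R := by
    have h1 : Measurable fun u : ℝ => κ * Real.exp (-u) := by fun_prop
    exact h1 measurableSet_Ioi
  have hcov : Iic U ⊆ S ∪ R := by
    intro u hu
    have hu' : u ≤ U := hu
    rcases le_or_gt (κ * Real.exp (-u)) T with h | h
    · refine Or.inl ⟨?_, h⟩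
      have h1 : Real.exp U < m * b := by
        rw [div_lt_iff₀ hb₀0] at hm2
        calc Real.exp U < m * b₀ := hm2
          _ ≤ m * b := by gcongr
      have h2 : Real.exp U * Real.exp (-U) = 1 := by rw [← Real.exp_add]; simp
      have h3 : Real.exp (-U) ≤ Real.exp (-u) := Real.exp_le_exp.2 (by linarith)
      calc (1 : ℝ) = Real.exp U * Real.exp (-U) := h2.symm
        _ < κ * Real.exp (-U) := by rw [hκ]; gcongr
        _ ≤ _ := by gcongr
    · exact Or.inr h
  -- the pointwise bounds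
  have hyx : ∀ u : ℝ, b * Real.exp (-u) / T ≤ Real.exp (-u) * Real.sin η := by
    intro u
    have h1 : b * Real.exp (-u) / T = Real.exp (-u) * (b * η) := by rw [hη]; ring
    rw [h1]
    have h2 : b * η ≤ Real.sin η := by nlinarith
    gcongr
  have hSpt : ∀ u ∈ S, F u ≤ ENNReal.ofReal C₁ * (ENNReal.ofReal (PP w T (κ * Real.exp (-u))) *
      ENNReal.ofReal (Real.exp (-(2 * σ) * u))) := by
    intro u hu
    have hu1 : 1 < κ * Real.exp (-u) := hu.1
    have hu2 : κ * Real.exp (-u) ≤ T := hu.2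
    have he := Real.exp_pos (-u)
    have hρ0 : 0 < b * Real.exp (-u) := by positivity
    have hρT : b * Real.exp (-u) ≤ T := by
      calc b * Real.exp (-u) = 1 * (b * Real.exp (-u)) := (one_mul _).symm
        _ ≤ m * (b * Real.exp (-u)) := by gcongr
        _ = κ * Real.exp (-u) := by rw [hκ]; ring
        _ ≤ T := hu2
    have h1 := KK_ray_le (a := a) hw (u := u) hη0 hη1 (y := b * Real.exp (-u) / T)
      (by positivity) (hyx u) ((div_le_one hT0).2 hρT)
    have h2 : Real.exp (-(2 * a) * (Real.exp (-u) * Real.sin η)) ≤ 1 := by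
      apply Real.exp_le_one_iff.2
      have : 0 ≤ a * (Real.exp (-u) * Real.sin η) := by positivity
      linarith
    have h3 : ∏ j, ((max (nd ((Real.cos η / (2 * Real.pi)) * Real.exp (-u) * w j))
        (b * Real.exp (-u) / T)) ^ 2)⁻¹ ≤ (m : ℝ) ^ (2 * r) * PP w T (κ * Real.exp (-u)) := by
      unfold PP
      refine prod_cmp hm0 (fun j => mx_pos hT0 (by linarith) _) fun j => ?_
      refine max_le ?_ ?_
      · have h4 : κ * Real.exp (-u) * w j = (m : ℝ) * (b * Real.exp (-u) * w j) := by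
          rw [hκ]; ring
        rw [h4]
        refine (nd_nat_mul _ _).trans ?_
        rw [← hb]
        gcongr
        exact le_max_left _ _
      · calc κ * Real.exp (-u) / T = m * (b * Real.exp (-u) / T) := by rw [hκ]; ring
          _ ≤ _ := by
            gcongr
            exact le_max_right _ _
    have h4 := PP_nonneg w T (κ * Real.exp (-u))
    calc F u ≤ (ENNReal.ofReal (Real.exp (-(2 * a) * (Real.exp (-u) * Real.sin η))) *
          ENNReal.ofReal (K * ∏ j, ((max (nd ((Real.cos η / (2 * Real.pi)) * Real.exp (-u) * w j))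
            (b * Real.exp (-u) / T)) ^ 2)⁻¹)) * ENNReal.ofReal (Real.exp (-(2 * σ) * u)) := by
          rw [hF]
          exact mul_le_mul_left h1 _
      _ ≤ (ENNReal.ofReal 1 *
          ENNReal.ofReal (K * ((m : ℝ) ^ (2 * r) * PP w T (κ * Real.exp (-u))))) *
            ENNReal.ofReal (Real.exp (-(2 * σ) * u)) := by gcongr
      _ = _ := by
          rw [ENNReal.ofReal_one, one_mul, ← mul_assoc K, ENNReal.ofReal_mul hC₁0.le, mul_assoc]
  have hRpt : ∀ u ∈ R, F u ≤ ENNReal.ofReal C₁ * ENNReal.ofReal (gf (2 * σ) (a * η) u) := by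
    intro u hu
    have hu' : T < κ * Real.exp (-u) := hu
    have he := Real.exp_pos (-u)
    have hρm : T / m < b * Real.exp (-u) := by
      rw [div_lt_iff₀ hm0]
      rw [hκ] at hu'
      linarith
    have hy1 : (1 : ℝ) / m ≤ Real.exp (-u) * Real.sin η := by
      refine le_trans ?_ (hyx u)
      rw [le_div_iff₀ hT0]
      calc 1 / (m : ℝ) * T = T / m := by ring
        _ ≤ _ := hρm.le
    have h1 := KK_ray_le (a := a) hw (u := u) hη0 hη1 (y := 1 / m) (by positivity) hy1
      ((div_le_one hm0).2 hm1.le)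
    have h2 : ∏ j, ((max (nd ((Real.cos η / (2 * Real.pi)) * Real.exp (-u) * w j))
        (1 / m)) ^ 2)⁻¹ ≤ (m : ℝ) ^ (2 * r) := by
      have : (m : ℝ) ^ (2 * r) = ∏ _j : Fin r, (m : ℝ) ^ 2 := by
        rw [Finset.prod_const, Finset.card_univ, Fintype.card_fin, ← pow_mul]
      rw [this]
      refine Finset.prod_le_prod (fun _ _ => by positivity) (fun j _ => ?_)
      calc ((max (nd ((Real.cos η / (2 * Real.pi)) * Real.exp (-u) * w j)) (1 / m)) ^ 2)⁻¹ ≤
            (((1 : ℝ) / m) ^ 2)⁻¹ := by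
            gcongr
            exact le_max_right _ _
        _ = (m : ℝ) ^ 2 := by simp
    have h3 : Real.exp (-(2 * a) * (Real.exp (-u) * Real.sin η)) ≤
        Real.exp (-(a * η) * Real.exp (-u)) := by
      apply Real.exp_le_exp.2
      have h4 : Real.exp (-u) * (η / 2) ≤ Real.exp (-u) * Real.sin η := by gcongr
      have h5 : a * (Real.exp (-u) * (η / 2)) ≤ a * (Real.exp (-u) * Real.sin η) := by gcongr
      linarith
    calc F u ≤ (ENNReal.ofReal (Real.exp (-(2 * a) * (Real.exp (-u) * Real.sin η))) *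
          ENNReal.ofReal (K * ∏ j, ((max (nd ((Real.cos η / (2 * Real.pi)) * Real.exp (-u) * w j))
            (1 / m)) ^ 2)⁻¹)) * ENNReal.ofReal (Real.exp (-(2 * σ) * u)) := by
          rw [hF]
          exact mul_le_mul_left h1 _
      _ ≤ (ENNReal.ofReal (Real.exp (-(a * η) * Real.exp (-u))) *
          ENNReal.ofReal (K * (m : ℝ) ^ (2 * r))) * ENNReal.ofReal (Real.exp (-(2 * σ) * u)) := by
          gcongr
      _ = _ := by
          unfold gf
          rw [← ENNReal.ofReal_mul (by positivity), ← ENNReal.ofReal_mul (by positivity),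
            ← ENNReal.ofReal_mul (by positivity)]
          congr 1
          ring
  have hI1 : ∫⁻ u in S, F u ≤ ENNReal.ofReal (C₁ * κ₀ ^ (-(2 * σ))) * FT w σ T := by
    have h1 := subst_exp hκ0 σ T (h := PP w T) (fun ρ => PP_nonneg w T ρ)
    have h2 : ∫⁻ u in S, ENNReal.ofReal (PP w T (κ * Real.exp (-u))) *
        ENNReal.ofReal (Real.exp (-(2 * σ) * u)) = ENNReal.ofReal (κ ^ (-(2 * σ))) * FT w σ T := by
      have h3 : FT w σ T = ENNReal.ofReal (κ ^ (2 * σ)) *
          ∫⁻ u in S, ENNReal.ofReal (PP w T (κ * Real.exp (-u))) *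
            ENNReal.ofReal (Real.exp (-(2 * σ) * u)) := h1
      rw [h3, ← mul_assoc, ← ENNReal.ofReal_mul (by positivity), ← Real.rpow_add hκ0,
        neg_add_cancel, Real.rpow_zero, ENNReal.ofReal_one, one_mul]
    calc _ ≤ ∫⁻ u in S, ENNReal.ofReal C₁ * (ENNReal.ofReal (PP w T (κ * Real.exp (-u))) *
          ENNReal.ofReal (Real.exp (-(2 * σ) * u))) := setLIntegral_mono' hSm hSpt
      _ = ENNReal.ofReal C₁ * (ENNReal.ofReal (κ ^ (-(2 * σ))) * FT w σ T) := by
          rw [lintegral_const_mul' _ _ ENNReal.ofReal_ne_top, h2]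
      _ ≤ ENNReal.ofReal C₁ * (ENNReal.ofReal (κ₀ ^ (-(2 * σ))) * FT w σ T) := by
          have h4 : κ ^ (-(2 * σ)) ≤ κ₀ ^ (-(2 * σ)) :=
            Real.rpow_le_rpow_of_nonpos hκ₀0 hκκ (by linarith)
          gcongr
      _ = _ := by rw [← mul_assoc, ← ENNReal.ofReal_mul hC₁0.le]
  have hI2 : ∫⁻ u in R, F u ≤ ENNReal.ofReal (C₁ * G * 2 ^ (2 * σ + 1)) * FT w σ T := by
    calc _ ≤ ∫⁻ u in R, ENNReal.ofReal C₁ * ENNReal.ofReal (gf (2 * σ) (a * η) u) :=
          setLIntegral_mono' hRm hRpt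
      _ ≤ ∫⁻ u, ENNReal.ofReal C₁ * ENNReal.ofReal (gf (2 * σ) (a * η) u) :=
          setLIntegral_le_lintegral _ _
      _ = ENNReal.ofReal (C₁ * G) * ENNReal.ofReal (T ^ (2 * σ)) := by
          rw [lintegral_const_mul' _ _ ENNReal.ofReal_ne_top, hgf η hη0,
            ← ENNReal.ofReal_mul hC₁0.le, ← ENNReal.ofReal_mul (by positivity)]
          congr 1
          have : η ^ (-(2 * σ)) = T ^ (2 * σ) := by
            rw [hη, one_div, Real.inv_rpow hT0.le, ← Real.rpow_neg hT0.le, neg_neg]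
          rw [this]
          ring
      _ ≤ ENNReal.ofReal (C₁ * G) * (ENNReal.ofReal (2 ^ (2 * σ + 1)) * FT w σ T) :=
          mul_le_mul_right (FT_ge w hσ hT) _
      _ = _ := by rw [← mul_assoc, ← ENNReal.ofReal_mul (by positivity)]
  calc ∫⁻ u in Iic U, F u ≤ ∫⁻ u in S ∪ R, F u := lintegral_mono_set hcov
    _ ≤ (∫⁻ u in S, F u) + ∫⁻ u in R, F u := lintegral_union_le _ _ _
    _ ≤ _ := add_le_add hI1 hI2
    _ = _ := by rw [ENNReal.ofReal_add (by positivity) (by positivity), add_mul]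

/-- lower bound -/
theorem FT_JJ_le (ha : 0 < a) (hw : ∀ j, 0 < w j) {σ : ℝ} (hσ : 0 < σ) :
    ∃ C : ℝ, 0 ≤ C ∧ ∀ T : ℝ, 1 ≤ T → FT w σ T ≤ ENNReal.ofReal C * JJ a w σ 0 (1 / T) := by
  have hp := Real.pi_pos
  have hcos1 : 0 < Real.cos 1 := Real.cos_one_pos
  set b₀ : ℝ := Real.cos 1 / (2 * Real.pi) with hb₀
  have hb₀0 : 0 < b₀ := by positivity
  have hb₀1 : b₀ ≤ 1 := by
    rw [hb₀, div_le_one (by positivity)]
    linarith [Real.cos_le_one 1, Real.pi_gt_three]
  have hA : 1 ≤ 1 / b₀ := by rw [le_div_iff₀ hb₀0]; linarith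
  set L : ℝ := ∏ j, ((2 * (w j + 2 * Real.pi) * (1 / b₀)) ^ 2) with hL
  have hL0 : 0 < L := Finset.prod_pos fun j _ => by have := hw j; positivity
  refine ⟨L * Real.exp (2 * a * (1 / b₀)), by positivity, fun T hT => ?_⟩
  have hT0 : 0 < T := by linarith
  set η : ℝ := 1 / T with hη
  have hη0 : 0 < η := by positivity
  have hη1 : η ≤ 1 := by rw [hη, div_le_one hT0]; exact hT
  have hsin := sin_ge hη0.le hη1
  have hsin0 : 0 < Real.sin η := by linarith
  have hsin1 : Real.sin η ≤ η := Real.sin_le hη0.le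
  set b : ℝ := Real.cos η / (2 * Real.pi) with hb
  have hcη : Real.cos 1 ≤ Real.cos η :=
    Real.cos_le_cos_of_nonneg_of_le_pi hη0.le (by linarith [Real.pi_gt_three]) hη1
  have hbb : b₀ ≤ b := by rw [hb₀, hb]; gcongr
  have hb0 : 0 < b := hb₀0.trans_le hbb
  have hb1 : b ≤ 1 := by
    rw [hb, div_le_one (by positivity)]
    linarith [Real.cos_le_one η, Real.pi_gt_three]
  set F : ℝ → ENNReal := fun u => ‖KK a w (zr u η)‖ₑ ^ 2 *
    ENNReal.ofReal (Real.exp (-(2 * σ) * u)) with hF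
  have hJ : JJ a w σ 0 η = ∫⁻ u in Iic 0, F u := rfl
  rw [hJ]
  set S : Set ℝ := {u : ℝ | b * Real.exp (-u) ∈ Ioc 1 T} with hS
  have hSm : MeasurableSet S := by
    have h1 : Measurable fun u : ℝ => b * Real.exp (-u) := by fun_prop
    exact h1 measurableSet_Ioc
  have hS0 : S ⊆ Iic 0 := by
    intro u hu
    have h1 : 1 < b * Real.exp (-u) := hu.1
    have h2 : 1 < Real.exp (-u) := by
      have := Real.exp_pos (-u)
      nlinarith
    have h3 := Real.one_lt_exp_iff.1 h2
    show u ≤ 0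
    linarith
  have hpt : ∀ u ∈ S, ENNReal.ofReal (PP w T (b * Real.exp (-u))) *
      ENNReal.ofReal (Real.exp (-(2 * σ) * u)) ≤
      ENNReal.ofReal (L * Real.exp (2 * a * (1 / b₀))) * F u := by
    intro u hu
    have hu1 : 1 < b * Real.exp (-u) := hu.1
    have hu2 : b * Real.exp (-u) ≤ T := hu.2
    have he := Real.exp_pos (-u)
    set ρ : ℝ := b * Real.exp (-u) with hρ
    set x : ℝ := Real.exp (-u) * Real.sin η with hx
    have hx0 : 0 < x := by positivity
    have hxρ : x ≤ 1 / b₀ * (ρ / T) := by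
      calc x ≤ Real.exp (-u) * η := by rw [hx]; gcongr
        _ = 1 / b * (ρ / T) := by rw [hρ, hη]; field_simp
        _ ≤ _ := by
          have : 0 < ρ := by linarith
          gcongr
    have hx1 : x ≤ 1 / b₀ := by
      have h1 : ρ / T ≤ 1 := (div_le_one hT0).2 hu2
      have h2 : 0 ≤ 1 / b₀ := by positivity
      nlinarith
    have hcρ : Real.exp (-u) * Real.cos η = 2 * Real.pi * ρ := by
      rw [hρ, hb]; field_simp
    have h1 : ‖KK a w (zr u η)‖ₑ ^ 2 = ENNReal.ofReal (‖KK a w (zr u η)‖ ^ 2) := by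
      rw [ENNReal.ofReal_pow (norm_nonneg _), ofReal_norm]
    have h2 : PP w T ρ ≤ L * Real.exp (2 * a * (1 / b₀)) * ‖KK a w (zr u η)‖ ^ 2 := by
      have e1 : ‖KK a w (zr u η)‖ ^ 2 = Real.exp (-(2 * a * x)) *
          ∏ j, (‖1 - cexp (-(w j : ℂ) * ((x : ℂ) + ((2 * Real.pi * ρ : ℝ) : ℂ) * I))‖ ^ 2)⁻¹ := by
        rw [zr_eq, ← hx, hcρ]
        unfold KK
        rw [norm_mul, norm_prod, Complex.norm_exp, mul_pow, ← Real.exp_nat_mul]
        congr 1
        · congr 1
          have : (-(a : ℂ) * ((x : ℂ) + ((2 * Real.pi * ρ : ℝ) : ℂ) * I)).re = -(a * x) := by simp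
          rw [this]
          push_cast
          ring
        · rw [← Finset.prod_pow]
          refine Finset.prod_congr rfl fun j _ => ?_
          rw [norm_inv, inv_pow]
      have e2 : ∀ j, ‖1 - cexp (-(w j : ℂ) * ((x : ℂ) + ((2 * Real.pi * ρ : ℝ) : ℂ) * I))‖ ≤
          2 * (w j + 2 * Real.pi) * (1 / b₀) * max (nd (ρ * w j)) (ρ / T) := by
        intro j
        have hwj := hw j
        refine (factor_le_nd (D := ρ) hwj hx0).trans ?_
        rw [mul_assoc (2 * (w j + 2 * Real.pi))]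
        have h3 : max (nd (ρ * w j)) x ≤ 1 / b₀ * max (nd (ρ * w j)) (ρ / T) := by
          refine max_le ?_ ?_
          · have h4 := le_max_left (nd (ρ * w j)) (ρ / T)
            have h5 := nd_nonneg (ρ * w j)
            nlinarith
          · refine hxρ.trans ?_
            have h4 := le_max_right (nd (ρ * w j)) (ρ / T)
            have h5 : 0 ≤ 1 / b₀ := by positivity
            gcongr
        gcongr
      have e3 : PP w T ρ ≤ L * ∏ j, (‖1 - cexp (-(w j : ℂ) *
          ((x : ℂ) + ((2 * Real.pi * ρ : ℝ) : ℂ) * I))‖ ^ 2)⁻¹ := by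
        unfold PP
        rw [hL, ← Finset.prod_mul_distrib]
        refine Finset.prod_le_prod (fun j _ => by positivity) fun j _ => ?_
        have hwj := hw j
        have hmx := mx_pos hT0 (by linarith : 0 < ρ) (ρ * w j)
        have hN : 0 < ‖1 - cexp (-(w j : ℂ) * ((x : ℂ) + ((2 * Real.pi * ρ : ℝ) : ℂ) * I))‖ :=
          norm_pos_iff.2 (one_sub_ne hwj (by simpa using hx0))
        rw [← div_eq_mul_inv, le_div_iff₀ (by positivity), inv_mul_le_iff₀ (by positivity),
          ← mul_pow]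
        refine pow_le_pow_left₀ hN.le ((e2 j).trans_eq ?_) 2
        ring
      have e4 : 1 ≤ Real.exp (2 * a * (1 / b₀)) * Real.exp (-(2 * a * x)) := by
        rw [← Real.exp_add]
        apply Real.one_le_exp
        have : a * x ≤ a * (1 / b₀) := by gcongr
        linarith
      rw [e1]
      set Q := ∏ j, (‖1 - cexp (-(w j : ℂ) *
          ((x : ℂ) + ((2 * Real.pi * ρ : ℝ) : ℂ) * I))‖ ^ 2)⁻¹ with hQ
      have hQ0 : 0 ≤ Q := Finset.prod_nonneg fun j _ => by positivity
      calc PP w T ρ ≤ (L * Q) * 1 := by rw [mul_one]; exact e3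
        _ ≤ (L * Q) * (Real.exp (2 * a * (1 / b₀)) * Real.exp (-(2 * a * x))) := by gcongr
        _ = _ := by ring
    calc ENNReal.ofReal (PP w T ρ) * ENNReal.ofReal (Real.exp (-(2 * σ) * u)) ≤
        ENNReal.ofReal (L * Real.exp (2 * a * (1 / b₀)) * ‖KK a w (zr u η)‖ ^ 2) *
          ENNReal.ofReal (Real.exp (-(2 * σ) * u)) := by gcongr
      _ = _ := by
          have h3 : 0 ≤ L * Real.exp (2 * a * (1 / b₀)) :=
            mul_nonneg hL0.le (Real.exp_pos _).le
          rw [ENNReal.ofReal_mul h3, ← h1, mul_assoc]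
  have h1 := subst_exp hb0 σ T (h := PP w T) (fun ρ => PP_nonneg w T ρ)
  have h2 : b ^ (2 * σ) ≤ 1 := Real.rpow_le_one hb0.le hb1 (by linarith)
  calc FT w σ T = ENNReal.ofReal (b ^ (2 * σ)) * ∫⁻ u in S,
        ENNReal.ofReal (PP w T (b * Real.exp (-u))) *
          ENNReal.ofReal (Real.exp (-(2 * σ) * u)) := h1
    _ ≤ ENNReal.ofReal 1 * ∫⁻ u in S, ENNReal.ofReal (L * Real.exp (2 * a * (1 / b₀))) * F u := by
        refine mul_le_mul' (ENNReal.ofReal_le_ofReal h2) (setLIntegral_mono' hSm hpt)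
    _ = ENNReal.ofReal (L * Real.exp (2 * a * (1 / b₀))) * ∫⁻ u in S, F u := by
        rw [ENNReal.ofReal_one, one_mul, lintegral_const_mul' _ _ ENNReal.ofReal_ne_top]
    _ ≤ _ := mul_le_mul_right (lintegral_mono_set hS0) _

end Pool.Agent.H312.Ex
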