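import Pool.Agent.H312.Ex.JJ

set_option autoImplicit false

/-!
# Plancherel's theorem in both directions
-/

namespace Pool.Agent.H312.Ex

open Finset Filter Topology MeasureTheory Complex Set FourierTransform
open Pool.Agent.H131R5.BZ Pool.Agent.Y930.Bz Pool.Agent.Y616.BM Pool.Agent.H312.Barnes
open Pool.Agent.H312.Sh

variable {r : ℕ} {a : ℝ} {w : Fin r → ℝ} {c : ℕ → ℂ}

/-- the smooth weight -/
noncomputable def kk (σ T t : ℝ) : ℝ := t ^ (2 * σ - 1) * Real.exp (-(2 / T) * t)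

lemma kk_nonneg (σ T : ℝ) {t : ℝ} (ht : 0 ≤ t) : 0 ≤ kk σ T t := by unfold kk; positivity

lemma kk_meas (σ T : ℝ) : Measurable (kk σ T) := by unfold kk; fun_prop

/-- the smooth mean square -/
noncomputable def ET {r : ℕ} (a : ℝ) (w : Fin r → ℝ) (c : ℕ → ℂ) (σ T : ℝ) : ENNReal :=
  ∫⁻ t in Ioi (1 : ℝ), ENNReal.ofReal (kk σ T t * ‖FF a w c ((σ : ℂ) + t * I)‖ ^ 2)

lemma gint {x : ℝ} (hx : 0 < x) : ∃ C : ℝ, 0 ≤ C ∧ ∀ T : ℝ, 1 ≤ T →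
    ∫⁻ t in Ioi (1 : ℝ), ENNReal.ofReal (t ^ (x - 1) * Real.exp (-(2 / T) * t)) ≤
      ENNReal.ofReal (C * T ^ x) := by
  have hG := Real.Gamma_pos_of_pos hx
  refine ⟨(1 / 2) ^ x * Real.Gamma x, by positivity, fun T hT => ?_⟩
  have hT0 : 0 < T := by linarith
  have hc : 0 < 2 / T := by positivity
  calc _ ≤ ∫⁻ t in Ioi (0 : ℝ), ENNReal.ofReal (t ^ (x - 1) * Real.exp (-(2 / T) * t)) :=
        lintegral_mono_set (Ioi_subset_Ioi zero_le_one)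
    _ = ENNReal.ofReal (∫ t in Ioi (0 : ℝ), t ^ (x - 1) * Real.exp (-(2 / T) * t)) := by
        rw [ofReal_integral_eq_lintegral_ofReal (rpow_exp_int hx hc)]
        filter_upwards [self_mem_ae_restrict measurableSet_Ioi] with t ht
        have ht0 : (0 : ℝ) < t := ht
        positivity
    _ = ENNReal.ofReal ((1 / 2) ^ x * Real.Gamma x * T ^ x) := by
        congr 1
        have h1 := Real.integral_rpow_mul_exp_neg_mul_Ioi hx hc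
        have h2 : ∫ t in Ioi (0 : ℝ), t ^ (x - 1) * Real.exp (-(2 / T) * t) =
            ∫ t in Ioi (0 : ℝ), t ^ (x - 1) * Real.exp (-((2 / T) * t)) := by
          simp only [neg_mul]
        rw [h2, h1, one_div_div]
        have h3 : T / 2 = 1 / 2 * T := by ring
        rw [h3, Real.mul_rpow (by norm_num) hT0.le]
        ring
    _ ≤ _ := le_rfl

lemma Rt_le' (b : ℕ → ℂ) {s : ℂ} (hs : 1 ≤ s.im) :
    ‖Rt r b s‖ ≤ (∑ k ∈ range r, ‖b k‖) * (s.im)⁻¹ := by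
  unfold Rt
  rw [Finset.sum_mul]
  refine (norm_sum_le _ _).trans (Finset.sum_le_sum fun k hk => ?_)
  have hk' := Finset.mem_range.1 hk
  rw [norm_mul, norm_inv, norm_prod]
  have hf : ∀ i : ℕ, s.im ≤ ‖s - (i + 1)‖ := by
    intro i
    have h1 := Complex.abs_im_le_norm (s - (i + 1))
    have h2 : (s - (i + 1)).im = s.im := by simp
    rwa [h2, abs_of_nonneg (by linarith)] at h1
  have h : s.im ≤ ∏ i ∈ range (r - k), ‖s - (i + 1)‖ := by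
    calc s.im = s.im ^ 1 := (pow_one _).symm
      _ ≤ s.im ^ (r - k) := pow_le_pow_right₀ hs (by omega)
      _ = ∏ _i ∈ range (r - k), s.im := by simp
      _ ≤ _ := Finset.prod_le_prod (fun _ _ => by linarith) fun i _ => hf i
  gcongr

lemma planch (ha : 0 < a) (hw : ∀ j, 0 < w j) {b : ℕ → ℂ} {ρ C₀ : ℝ} (hρ : 0 < ρ)
    (hρ1 : ρ ≤ 1) (h0 : ∀ z : ℂ, z ≠ 0 → ‖z‖ ≤ ρ → ‖Kt a w b z‖ ≤ C₀) {σ θ : ℝ} (hσ : 0 < σ)
    (hθ0 : 0 ≤ θ) (hθ1 : θ < Real.pi / 2) :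
    ∫⁻ t : ℝ, ‖𝓕 (kth a w b σ θ) (t / (2 * Real.pi))‖ₑ ^ 2 =
      ENNReal.ofReal (2 * Real.pi) * ∫⁻ u, ‖kth a w b σ θ u‖ₑ ^ 2 := by
  obtain ⟨k1, k2⟩ := kth_good ha hw hρ hρ1 h0 hθ0 hθ1 hσ
  have hpl := Pool.Agent.TH794.QD.plancherel (kth a w b σ θ) k1 k2
  have hm : Measurable (fun ξ : ℝ => ‖𝓕 (kth a w b σ θ) ξ‖ₑ ^ 2) := by
    have hc : Continuous (𝓕 (kth a w b σ θ)) :=
      VectorFourier.fourierIntegral_continuous Real.continuous_fourierChar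
        (by exact continuous_inner) k1
    exact (hc.measurable.enorm).pow_const 2
  rw [← hpl]
  have h1 : Measure.map (fun t : ℝ => (2 * Real.pi)⁻¹ * t) volume =
      ENNReal.ofReal (2 * Real.pi) • volume := by
    rw [Real.map_volume_mul_left (by positivity), inv_inv, abs_of_pos (by positivity)]
  have h2 : ∀ t : ℝ, t / (2 * Real.pi) = (2 * Real.pi)⁻¹ * t := fun t => by
    rw [div_eq_inv_mul]
  simp only [h2]
  rw [← lintegral_map (f := fun ξ : ℝ => ‖𝓕 (kth a w b σ θ) ξ‖ₑ ^ 2) hm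
    (measurable_const_mul _), h1, lintegral_smul_measure, smul_eq_mul]

lemma four_norm (ha : 0 < a) (hw : ∀ j, 0 < w j) {b : ℕ → ℂ} {ρ C₀ : ℝ} (hρ : 0 < ρ)
    (hρ1 : ρ ≤ 1) (h0 : ∀ z : ℂ, z ≠ 0 → ‖z‖ ≤ ρ → ‖Kt a w b z‖ ≤ C₀) {σ θ : ℝ} (hσ : 0 < σ)
    (hθ0 : 0 ≤ θ) (hθ1 : θ < Real.pi / 2) (t : ℝ) :
    ‖𝓕 (kth a w b σ θ) (t / (2 * Real.pi))‖ =
      ‖mellin (fun t : ℝ => Kt a w b t) ((σ : ℂ) + t * I)‖ * Real.exp (θ * t) := by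
  have h2 := mellin_rot ha hw hρ hρ1 h0 hθ0 hθ1 (s := (σ : ℂ) + t * I) (by simpa using hσ)
  have h3 : ((σ : ℂ) + t * I).re = σ := by simp
  have h4 : ((σ : ℂ) + t * I).im = t := by simp
  rw [h3, h4] at h2
  have h7 : ‖cexp (((σ : ℂ) + t * I) * (θ * I))‖ = Real.exp (-(θ * t)) := by
    rw [Complex.norm_exp]
    congr 1
    simp
    ring
  rw [h2, norm_mul, h7, mul_comm (Real.exp (-(θ * t))), mul_assoc, ← Real.exp_add,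
    neg_add_cancel, Real.exp_zero, mul_one]

/-- the pointwise comparison -/
lemma pt_two (ha : 0 < a) (hw : ∀ j, 0 < w j) (hc : Tay a w c) {b : ℕ → ℂ} {ρ C₀ : ℝ}
    (hρ : 0 < ρ) (hρ1 : ρ ≤ 1) (h0 : ∀ z : ℂ, z ≠ 0 → ‖z‖ ≤ ρ → ‖Kt a w b z‖ ≤ C₀) {σ : ℝ}
    (hσ : 0 < σ) : ∃ C : ℝ, 0 < C ∧ ∀ T t : ℝ, 1 ≤ T → 1 ≤ t →
      kk σ T t * ‖FF a w c ((σ : ℂ) + t * I)‖ ^ 2 ≤
        C * ‖𝓕 (kth a w b σ (Real.pi / 2 - 1 / T)) (t / (2 * Real.pi))‖ ^ 2 +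
        C * (kk σ T t * (t⁻¹) ^ 2) ∧
      ‖𝓕 (kth a w b σ (Real.pi / 2 - 1 / T)) (t / (2 * Real.pi))‖ ^ 2 ≤
        C * (kk σ T t * ‖FF a w c ((σ : ℂ) + t * I)‖ ^ 2) + C * (kk σ T t * (t⁻¹) ^ 2) := by
  obtain ⟨g, hg, hG⟩ := Gamma_lower_line hσ
  obtain ⟨G, hG0, hGu⟩ := Gamma_upper_all σ
  set B := ∑ k ∈ range r, ‖b k‖ with hB
  have hB0 : 0 ≤ B := by positivity
  set C : ℝ := 2 * (g⁻¹) ^ 2 + 2 * B ^ 2 + 2 * G ^ 2 + 2 * G ^ 2 * B ^ 2 with hC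
  have hC0 : 0 < C := by positivity
  have hC1 : 2 * (g⁻¹) ^ 2 ≤ C := by rw [hC]; nlinarith [sq_nonneg B, sq_nonneg G, mul_nonneg (sq_nonneg G) (sq_nonneg B)]
  have hC2 : 2 * B ^ 2 ≤ C := by rw [hC]; nlinarith [sq_nonneg g⁻¹, sq_nonneg G, mul_nonneg (sq_nonneg G) (sq_nonneg B)]
  have hC3 : 2 * G ^ 2 ≤ C := by rw [hC]; nlinarith [sq_nonneg B, sq_nonneg g⁻¹, mul_nonneg (sq_nonneg G) (sq_nonneg B)]
  have hC4 : 2 * G ^ 2 * B ^ 2 ≤ C := by rw [hC]; nlinarith [sq_nonneg B, sq_nonneg G, sq_nonneg g⁻¹]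
  refine ⟨C, hC0, fun T t hT ht => ?_⟩
  have hT0 : 0 < T := by linarith
  have ht0 : 0 < t := by linarith
  have hTi : 1 / T ≤ 1 := by rw [div_le_one hT0]; exact hT
  have hTi0 : 0 < 1 / T := by positivity
  set θ : ℝ := Real.pi / 2 - 1 / T with hθ
  have hθ0 : 0 ≤ θ := by
    have := Real.pi_gt_three
    linarith
  have hθ1 : θ < Real.pi / 2 := by linarith
  have hF := FF_formula ha hw hc hρ hρ1 h0 (s := (σ : ℂ) + t * I) (by simpa using hσ)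
    (by simpa using ht0)
  have hRt : ‖Rt r b ((σ : ℂ) + t * I)‖ ≤ B * t⁻¹ := by
    have h := Rt_le' (r := r) b (s := (σ : ℂ) + t * I) (by simpa using ht)
    have h4 : ((σ : ℂ) + t * I).im = t := by simp
    rwa [h4] at h
  have hΓ0 : Gamma ((σ : ℂ) + t * I) ≠ 0 :=
    Complex.Gamma_ne_zero_of_re_pos (by simpa using hσ)
  set M : ℂ := mellin (fun t : ℝ => Kt a w b t) ((σ : ℂ) + t * I) with hM
  set Γ : ℂ := Gamma ((σ : ℂ) + t * I) with hΓ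
  set F : ℂ := FF a w c ((σ : ℂ) + t * I) with hFd
  set Q : ℂ := Rt r b ((σ : ℂ) + t * I) with hQ
  have hfn := four_norm ha hw hρ hρ1 h0 hσ hθ0 hθ1 t
  rw [← hM] at hfn
  set X : ℝ := ‖𝓕 (kth a w b σ θ) (t / (2 * Real.pi))‖ with hX
  have hk : kk σ T t = (t ^ (σ - 1 / 2) * Real.exp (-(Real.pi / 2 * t)) * Real.exp (θ * t)) ^ 2 := by
    unfold kk
    rw [mul_pow, mul_pow, ← Real.rpow_natCast (t ^ (σ - 1 / 2)), ← Real.rpow_mul ht0.le,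
      ← Real.exp_nat_mul, ← Real.exp_nat_mul, mul_assoc, ← Real.exp_add]
    congr 2
    · push_cast; ring
    · push_cast; rw [hθ]; ring
  set Y : ℝ := t ^ (σ - 1 / 2) * Real.exp (-(Real.pi / 2 * t)) * Real.exp (θ * t) with hY
  have hY0 : 0 < Y := by positivity
  have e1 : g * t ^ (σ - 1 / 2) * Real.exp (-(Real.pi / 2 * t)) * Real.exp (θ * t) = g * Y := by
    rw [hY]; ring
  have e2 : G * t ^ (σ - 1 / 2) * Real.exp (-(Real.pi / 2 * t)) * Real.exp (θ * t) = G * Y := by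
    rw [hY]; ring
  have l1 : g * Y ≤ ‖Γ‖ * Real.exp (θ * t) := by
    rw [← e1]
    exact mul_le_mul_of_nonneg_right (hG t ht) (Real.exp_pos _).le
  have l2 : ‖Γ‖ * Real.exp (θ * t) ≤ G * Y := by
    rw [← e2]
    exact mul_le_mul_of_nonneg_right (hGu t ht) (Real.exp_pos _).le
  have hΓn : 0 < ‖Γ‖ := norm_pos_iff.2 hΓ0
  have hQ2 : ‖Q‖ ^ 2 ≤ B ^ 2 * (t⁻¹) ^ 2 := by
    rw [← mul_pow]
    exact pow_le_pow_left₀ (norm_nonneg _) hRt 2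
  have hsq : ∀ x y : ℂ, ‖x + y‖ ^ 2 ≤ 2 * ‖x‖ ^ 2 + 2 * ‖y‖ ^ 2 := by
    intro x y
    have h1 := norm_add_le x y
    have h2 := norm_nonneg (x + y)
    have h3 : ‖x + y‖ ^ 2 ≤ (‖x‖ + ‖y‖) ^ 2 := pow_le_pow_left₀ h2 h1 2
    nlinarith [sq_nonneg (‖x‖ - ‖y‖)]
  have hk0 : 0 ≤ kk σ T t := kk_nonneg σ T ht0.le
  constructor
  · have h1 : ‖F‖ ^ 2 ≤ 2 * ‖Γ⁻¹ * M‖ ^ 2 + 2 * ‖Q‖ ^ 2 := by rw [hF]; exact hsq _ _
    have h2 : kk σ T t * ‖Γ⁻¹ * M‖ ^ 2 ≤ (g⁻¹) ^ 2 * X ^ 2 := by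
      rw [hk, ← mul_pow, ← mul_pow]
      refine pow_le_pow_left₀ (by positivity) ?_ 2
      rw [hfn, norm_mul, norm_inv]
      have h3 : Y * ‖Γ‖⁻¹ ≤ g⁻¹ * Real.exp (θ * t) := by
        rw [← div_eq_mul_inv, div_le_iff₀ hΓn]
        calc Y = g⁻¹ * (g * Y) := by field_simp
          _ ≤ g⁻¹ * (‖Γ‖ * Real.exp (θ * t)) := by gcongr
          _ = _ := by ring
      calc Y * (‖Γ‖⁻¹ * ‖M‖) = (Y * ‖Γ‖⁻¹) * ‖M‖ := by ring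
        _ ≤ (g⁻¹ * Real.exp (θ * t)) * ‖M‖ := by gcongr
        _ = _ := by ring
    calc kk σ T t * ‖F‖ ^ 2 ≤ kk σ T t * (2 * ‖Γ⁻¹ * M‖ ^ 2 + 2 * ‖Q‖ ^ 2) := by gcongr
      _ = 2 * (kk σ T t * ‖Γ⁻¹ * M‖ ^ 2) + 2 * (kk σ T t * ‖Q‖ ^ 2) := by ring
      _ ≤ 2 * ((g⁻¹) ^ 2 * X ^ 2) + 2 * (kk σ T t * (B ^ 2 * (t⁻¹) ^ 2)) := by gcongr
      _ = (2 * (g⁻¹) ^ 2) * X ^ 2 + (2 * B ^ 2) * (kk σ T t * (t⁻¹) ^ 2) := by ring
      _ ≤ _ := by gcongr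
  · have h1 : M = Γ * (F - Q) := by
      rw [hF]
      field_simp
      ring
    have h2 : X ≤ G * Y * ‖F - Q‖ := by
      rw [hfn, h1, norm_mul]
      calc ‖Γ‖ * ‖F - Q‖ * Real.exp (θ * t) = (‖Γ‖ * Real.exp (θ * t)) * ‖F - Q‖ := by ring
        _ ≤ _ := by gcongr
    have h3 : ‖F - Q‖ ^ 2 ≤ 2 * ‖F‖ ^ 2 + 2 * ‖Q‖ ^ 2 := by
      have := hsq F (-Q)
      rwa [← sub_eq_add_neg, norm_neg] at this
    have h4 : X ^ 2 ≤ G ^ 2 * (kk σ T t * ‖F - Q‖ ^ 2) := by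
      rw [hk]
      calc X ^ 2 ≤ (G * Y * ‖F - Q‖) ^ 2 := pow_le_pow_left₀ (norm_nonneg _) h2 2
        _ = _ := by ring
    calc X ^ 2 ≤ G ^ 2 * (kk σ T t * ‖F - Q‖ ^ 2) := h4
      _ ≤ G ^ 2 * (kk σ T t * (2 * ‖F‖ ^ 2 + 2 * (B ^ 2 * (t⁻¹) ^ 2))) := by
          have h5 : ‖F - Q‖ ^ 2 ≤ 2 * ‖F‖ ^ 2 + 2 * (B ^ 2 * (t⁻¹) ^ 2) := by linarith
          gcongr
      _ = (2 * G ^ 2) * (kk σ T t * ‖F‖ ^ 2) + (2 * G ^ 2 * B ^ 2) * (kk σ T t * (t⁻¹) ^ 2) := by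
          ring
      _ ≤ _ := by gcongr

end Pool.Agent.H312.Ex
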