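import Pool.Agent.H312.Ex.Pl

set_option autoImplicit false

/-!
# The smooth mean square and the resonance integral
-/

namespace Pool.Agent.H312.Ex

open Finset Filter Topology MeasureTheory Complex Set FourierTransform
open Pool.Agent.H131R5.BZ Pool.Agent.Y930.Bz Pool.Agent.Y616.BM Pool.Agent.H312.Barnes
open Pool.Agent.H312.Sh

variable {r : ℕ} {a : ℝ} {w : Fin r → ℝ} {c : ℕ → ℂ}

lemma esq (z : ℂ) : ‖z‖ₑ ^ 2 = ENNReal.ofReal (‖z‖ ^ 2) := by
  rw [ENNReal.ofReal_pow (norm_nonneg _), ofReal_norm]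

/-- the part of the transform at small heights -/
lemma low_part (ha : 0 < a) (hw : ∀ j, 0 < w j) {b : ℕ → ℂ} {ρ C₀ : ℝ} (hρ : 0 < ρ)
    (hρ1 : ρ ≤ 1) (h0 : ∀ z : ℂ, z ≠ 0 → ‖z‖ ≤ ρ → ‖Kt a w b z‖ ≤ C₀) {σ : ℝ} (hσ : 0 < σ) :
    ∃ C : ℝ, 0 ≤ C ∧ ∀ T : ℝ, 1 ≤ T → ∫⁻ t in Iic (1 : ℝ),
      ‖𝓕 (kth a w b σ (Real.pi / 2 - 1 / T)) (t / (2 * Real.pi))‖ₑ ^ 2 ≤ ENNReal.ofReal C := by
  obtain ⟨C₁, c₁, hC₁, hc₁, h1⟩ := Kt_sector ha hw hρ hρ1 h0 one_pos
  have h2 : ∀ t : ℝ, 0 < t → ‖Kt a w b t‖ ≤ C₁ * Real.exp (-c₁ * t) := by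
    intro t ht
    have h3 := h1 (t : ℂ) (by exact_mod_cast ht.ne') (by
      rw [Complex.norm_real, Real.norm_of_nonneg ht.le]; simp)
    rwa [Complex.norm_real, Real.norm_of_nonneg ht.le] at h3
  obtain ⟨M, hM, h3⟩ := mellin_unif (ι := Unit) (S := Set.univ)
    (f := fun _ (t : ℝ) => Kt a w b t) (α := σ) (β := σ) hC₁ hc₁ (fun _ _ => h2) hσ le_rfl
  refine ⟨M ^ 2 * Real.exp (Real.pi - 1) * Real.exp 1, by positivity, fun T hT => ?_⟩
  have hT0 : 0 < T := by linarith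
  have hTi : 1 / T ≤ 1 := by rw [div_le_one hT0]; exact hT
  have hTi0 : 0 < 1 / T := by positivity
  set θ : ℝ := Real.pi / 2 - 1 / T with hθ
  have hpi := Real.pi_gt_three
  have hθ0 : 0 ≤ θ := by linarith
  have hθ1 : θ < Real.pi / 2 := by linarith
  have hpt : ∀ t ∈ Iic (1 : ℝ), ‖𝓕 (kth a w b σ θ) (t / (2 * Real.pi))‖ₑ ^ 2 ≤
      ENNReal.ofReal (M ^ 2 * Real.exp (Real.pi - 1)) * ENNReal.ofReal (Real.exp t) := by
    intro t ht
    have ht1 : t ≤ 1 := ht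
    rw [esq, ← ENNReal.ofReal_mul (by positivity)]
    apply ENNReal.ofReal_le_ofReal
    rw [four_norm ha hw hρ hρ1 h0 hσ hθ0 hθ1 t]
    have h4 := h3 () (Set.mem_univ _) ((σ : ℂ) + t * I) (by simp) (by simp)
    have h5 : Real.exp (θ * t) ^ 2 ≤ Real.exp (Real.pi - 1) * Real.exp t := by
      rw [← Real.exp_nat_mul, ← Real.exp_add]
      apply Real.exp_le_exp.2
      push_cast
      nlinarith
    calc _ = ‖mellin (fun t : ℝ => Kt a w b t) ((σ : ℂ) + t * I)‖ ^ 2 * Real.exp (θ * t) ^ 2 := by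
          rw [mul_pow]
      _ ≤ M ^ 2 * (Real.exp (Real.pi - 1) * Real.exp t) := by gcongr
      _ = _ := by ring
  calc _ ≤ ∫⁻ t in Iic (1 : ℝ), ENNReal.ofReal (M ^ 2 * Real.exp (Real.pi - 1)) *
        ENNReal.ofReal (Real.exp t) := setLIntegral_mono' measurableSet_Iic hpt
    _ = ENNReal.ofReal (M ^ 2 * Real.exp (Real.pi - 1)) *
        ENNReal.ofReal (∫ t in Iic (1 : ℝ), Real.exp t) := by
        rw [lintegral_const_mul' _ _ ENNReal.ofReal_ne_top,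
          ofReal_integral_eq_lintegral_ofReal (integrableOn_exp_Iic 1)
            (ae_of_all _ fun t => (Real.exp_pos t).le)]
    _ = _ := by
        rw [integral_exp_Iic, ← ENNReal.ofReal_mul (by positivity)]

/-- the upper bound -/
theorem ET_le_FT (ha : 0 < a) (hw : ∀ j, 0 < w j) (hc : Tay a w c) {σ : ℝ} (hσ : 0 < σ) :
    ∃ C : ℝ, 0 ≤ C ∧ ∀ T : ℝ, 2 ≤ T → ET a w c σ T ≤ ENNReal.ofReal C * FT w σ T := by
  obtain ⟨b, ρ, C₀, hρ, hρ1, hC₀, h0⟩ := exists_near a hw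
  obtain ⟨C₁, hC₁, h1⟩ := pt_two ha hw hc hρ hρ1 h0 hσ
  obtain ⟨C₂, hC₂, h2⟩ := S_le hρ hρ1 h0 hσ
  obtain ⟨C₃, hC₃, h3⟩ := JJ_FT_le ha hw hσ (-Real.log ρ)
  obtain ⟨C₄, hC₄, h4⟩ := gint (x := 2 * σ) (by positivity)
  refine ⟨C₁ * (2 * Real.pi) * (C₂ * 2 ^ (2 * σ + 1) + 2 * C₃) + C₁ * C₄ * 2 ^ (2 * σ + 1),
    by positivity, fun T hT => ?_⟩
  have hT0 : 0 < T := by linarith
  have hT1 : 1 ≤ T := by linarith
  have hTi : 1 / T ≤ 1 := by rw [div_le_one hT0]; exact hT1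
  have hTi0 : 0 < 1 / T := by positivity
  set θ : ℝ := Real.pi / 2 - 1 / T with hθ
  have hpi := Real.pi_gt_three
  have hθ0 : 0 ≤ θ := by linarith
  have hθ1 : θ < Real.pi / 2 := by linarith
  have hF := FT_ge w hσ hT
  have hpt : ∀ t ∈ Ioi (1 : ℝ), ENNReal.ofReal (kk σ T t * ‖FF a w c ((σ : ℂ) + t * I)‖ ^ 2) ≤
      ENNReal.ofReal C₁ * ‖𝓕 (kth a w b σ θ) (t / (2 * Real.pi))‖ₑ ^ 2 +
        ENNReal.ofReal C₁ * ENNReal.ofReal (t ^ (2 * σ - 1) * Real.exp (-(2 / T) * t)) := by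
    intro t ht
    have ht1 : (1 : ℝ) < t := ht
    have ht0 : 0 < t := by linarith
    have h5 := (h1 T t hT1 ht1.le).1
    rw [esq, ← ENNReal.ofReal_mul hC₁.le, ← ENNReal.ofReal_mul hC₁.le,
      ← ENNReal.ofReal_add (by positivity) (by positivity)]
    apply ENNReal.ofReal_le_ofReal
    refine h5.trans ?_
    have h6 : (t⁻¹) ^ 2 ≤ 1 := pow_le_one₀ (by positivity) (inv_le_one_of_one_le₀ ht1.le)
    have h7 := kk_nonneg σ T ht0.le
    have h8 : kk σ T t * (t⁻¹) ^ 2 ≤ kk σ T t := mul_le_of_le_one_right h7 h6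
    unfold kk at h8 ⊢
    gcongr
  have hm : Measurable fun t : ℝ => ENNReal.ofReal C₁ *
      ENNReal.ofReal (t ^ (2 * σ - 1) * Real.exp (-(2 / T) * t)) := by fun_prop
  have e0 : (1 / T) ^ (-(2 * σ)) = T ^ (2 * σ) := by
    rw [one_div, Real.inv_rpow hT0.le, ← Real.rpow_neg hT0.le, neg_neg]
  calc ET a w c σ T ≤ ∫⁻ t in Ioi (1 : ℝ),
        (ENNReal.ofReal C₁ * ‖𝓕 (kth a w b σ θ) (t / (2 * Real.pi))‖ₑ ^ 2 +
        ENNReal.ofReal C₁ * ENNReal.ofReal (t ^ (2 * σ - 1) * Real.exp (-(2 / T) * t))) :=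
        setLIntegral_mono' measurableSet_Ioi hpt
    _ = ENNReal.ofReal C₁ * (∫⁻ t in Ioi (1 : ℝ),
        ‖𝓕 (kth a w b σ θ) (t / (2 * Real.pi))‖ₑ ^ 2) + ENNReal.ofReal C₁ *
        ∫⁻ t in Ioi (1 : ℝ), ENNReal.ofReal (t ^ (2 * σ - 1) * Real.exp (-(2 / T) * t)) := by
        rw [lintegral_add_right _ hm, lintegral_const_mul' _ _ ENNReal.ofReal_ne_top,
          lintegral_const_mul' _ _ ENNReal.ofReal_ne_top]
    _ ≤ ENNReal.ofReal C₁ * (ENNReal.ofReal (2 * Real.pi) *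
          (ENNReal.ofReal (C₂ * (1 / T) ^ (-(2 * σ))) + 2 * JJ a w σ (-Real.log ρ) (1 / T))) +
        ENNReal.ofReal C₁ * ENNReal.ofReal (C₄ * T ^ (2 * σ)) := by
        refine add_le_add (mul_le_mul_right ?_ _) (mul_le_mul_right (h4 T hT1) _)
        calc _ ≤ ∫⁻ t : ℝ, ‖𝓕 (kth a w b σ θ) (t / (2 * Real.pi))‖ₑ ^ 2 :=
              setLIntegral_le_lintegral _ _
          _ = _ := planch ha hw hρ hρ1 h0 hσ hθ0 hθ1
          _ ≤ _ := mul_le_mul_right (h2 (1 / T) hTi0 hTi) _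
    _ ≤ ENNReal.ofReal C₁ * (ENNReal.ofReal (2 * Real.pi) *
          (ENNReal.ofReal C₂ * (ENNReal.ofReal (2 ^ (2 * σ + 1)) * FT w σ T) +
            ENNReal.ofReal 2 * (ENNReal.ofReal C₃ * FT w σ T))) +
        ENNReal.ofReal C₁ * (ENNReal.ofReal C₄ *
          (ENNReal.ofReal (2 ^ (2 * σ + 1)) * FT w σ T)) := by
        have e2 : ENNReal.ofReal 2 = 2 := by simp
        rw [e0, ENNReal.ofReal_mul hC₂, ENNReal.ofReal_mul hC₄, e2]
        have := h3 T hT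
        gcongr
    _ = _ := by
        rw [ENNReal.ofReal_add (by positivity) (by positivity),
          ENNReal.ofReal_mul (p := C₁ * (2 * Real.pi)) (by positivity),
          ENNReal.ofReal_add (by positivity) (by positivity),
          ENNReal.ofReal_mul (p := C₁) hC₁.le, ENNReal.ofReal_mul (p := C₂) hC₂,
          ENNReal.ofReal_mul (p := (2 : ℝ)) (q := C₃) (by norm_num),
          ENNReal.ofReal_mul (p := C₁ * C₄) (by positivity),
          ENNReal.ofReal_mul (p := C₁) (q := C₄) hC₁.le]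
        ring

/-- the lower bound -/
theorem FT_le_ET (ha : 0 < a) (hw : ∀ j, 0 < w j) (hc : Tay a w c) {σ : ℝ} (hσ : 0 < σ) :
    ∃ C p : ℝ, 0 ≤ C ∧ 0 < p ∧ p < 2 * σ ∧ ∀ T : ℝ, 2 ≤ T →
      FT w σ T ≤ ENNReal.ofReal C * ET a w c σ T + ENNReal.ofReal (C * T ^ p) := by
  obtain ⟨b, ρ, C₀, hρ, hρ1, hC₀, h0⟩ := exists_near a hw
  obtain ⟨C₁, hC₁, h1⟩ := pt_two ha hw hc hρ hρ1 h0 hσ
  obtain ⟨C₂, hC₂, h2⟩ := low_part ha hw hρ hρ1 h0 hσ
  obtain ⟨C₃, hC₃, h3⟩ := FT_JJ_le ha hw hσ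
  set m : ℝ := min (1 / 2) (σ / 2) with hm
  have hm0 : 0 < m := lt_min (by norm_num) (by linarith)
  have hm1 : m ≤ 1 / 2 := min_le_left _ _
  have hm2 : m ≤ σ / 2 := min_le_right _ _
  set p : ℝ := 2 * σ - 2 * m with hp
  have hp0 : 0 < p := by rw [hp]; linarith
  obtain ⟨C₄, hC₄, h4⟩ := gint hp0
  obtain ⟨G, hG, hgf⟩ := gf_lint_scale (σ := p) (c := 1) hp0 one_pos
  set B := ∑ k ∈ range r, ‖b k‖ with hB
  have hB0 : 0 ≤ B := by positivity
  have hbB : ∀ k < r, ‖b k‖ ≤ B := fun k hk =>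
    Finset.single_le_sum (f := fun k => ‖b k‖) (fun i _ => norm_nonneg _)
      (Finset.mem_range.2 hk)
  set K : ℝ := r * (B * (ρ ^ r)⁻¹) with hK
  have hK0 : 0 ≤ K := by positivity
  set D : ℝ := C₃ * (2 * (C₂ + C₁ + C₁ * C₄) + 2 * (K ^ 2 * G)) with hD
  have hD0 : 0 ≤ D := by positivity
  refine ⟨D, p, hD0, hp0, by rw [hp]; linarith, fun T hT => ?_⟩
  have hT0 : 0 < T := by linarith
  have hT1 : 1 ≤ T := by linarith
  have hTi : 1 / T ≤ 1 := by rw [div_le_one hT0]; exact hT1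
  have hTi0 : 0 < 1 / T := by positivity
  set η : ℝ := 1 / T with hη
  set θ : ℝ := Real.pi / 2 - η with hθ
  have hpi := Real.pi_gt_three
  have hθ0 : 0 ≤ θ := by linarith
  have hθ1 : θ < Real.pi / 2 := by linarith
  have hsin := sin_ge hTi0.le hTi
  have hTp : 1 ≤ T ^ p := Real.one_le_rpow hT1 hp0.le
  -- the transform
  have hpt : ∀ t ∈ Ioi (1 : ℝ), ‖𝓕 (kth a w b σ θ) (t / (2 * Real.pi))‖ₑ ^ 2 ≤
      ENNReal.ofReal C₁ * ENNReal.ofReal (kk σ T t * ‖FF a w c ((σ : ℂ) + t * I)‖ ^ 2) +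
        ENNReal.ofReal C₁ * ENNReal.ofReal (t ^ (p - 1) * Real.exp (-(2 / T) * t)) := by
    intro t ht
    have ht1 : (1 : ℝ) < t := ht
    have ht0 : 0 < t := by linarith
    have h5 := (h1 T t hT1 ht1.le).2
    have h7 := kk_nonneg σ T ht0.le
    rw [esq, ← ENNReal.ofReal_mul hC₁.le, ← ENNReal.ofReal_mul hC₁.le,
      ← ENNReal.ofReal_add (by positivity) (by positivity)]
    apply ENNReal.ofReal_le_ofReal
    refine h5.trans ?_
    have h8 : kk σ T t * (t⁻¹) ^ 2 ≤ t ^ (p - 1) * Real.exp (-(2 / T) * t) := by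
      unfold kk
      have e1 : t ^ (p - 1) = t ^ (2 * σ - 1) * t ^ (-(2 * m)) := by
        rw [← Real.rpow_add ht0]; congr 1; rw [hp]; ring
      have e2 : (t⁻¹) ^ 2 ≤ t ^ (-(2 * m)) := by
        have e3 : (t⁻¹) ^ 2 = t ^ (-2 : ℝ) := by
          rw [Real.rpow_neg ht0.le, inv_pow]
          norm_cast
        rw [e3]
        exact Real.rpow_le_rpow_of_exponent_le ht1.le (by linarith)
      rw [e1]
      calc t ^ (2 * σ - 1) * Real.exp (-(2 / T) * t) * (t⁻¹) ^ 2 ≤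
          t ^ (2 * σ - 1) * Real.exp (-(2 / T) * t) * t ^ (-(2 * m)) := by gcongr
        _ = _ := by ring
    gcongr
  have hmm : Measurable fun t : ℝ => ENNReal.ofReal C₁ *
      ENNReal.ofReal (t ^ (p - 1) * Real.exp (-(2 / T) * t)) := by fun_prop
  have hkth : ∫⁻ u, ‖kth a w b σ θ u‖ₑ ^ 2 ≤ ENNReal.ofReal C₂ +
      (ENNReal.ofReal C₁ * ET a w c σ T + ENNReal.ofReal C₁ * ENNReal.ofReal (C₄ * T ^ p)) := by
    calc ∫⁻ u, ‖kth a w b σ θ u‖ₑ ^ 2 ≤
          ENNReal.ofReal (2 * Real.pi) * ∫⁻ u, ‖kth a w b σ θ u‖ₑ ^ 2 := by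
          have h5 : (1 : ENNReal) ≤ ENNReal.ofReal (2 * Real.pi) := by
            rw [← ENNReal.ofReal_one]
            exact ENNReal.ofReal_le_ofReal (by linarith)
          calc _ = 1 * ∫⁻ u, ‖kth a w b σ θ u‖ₑ ^ 2 := (one_mul _).symm
            _ ≤ _ := mul_le_mul_left h5 _
      _ = ∫⁻ t : ℝ, ‖𝓕 (kth a w b σ θ) (t / (2 * Real.pi))‖ₑ ^ 2 :=
          (planch ha hw hρ hρ1 h0 hσ hθ0 hθ1).symm
      _ = (∫⁻ t in Iic (1 : ℝ), ‖𝓕 (kth a w b σ θ) (t / (2 * Real.pi))‖ₑ ^ 2) +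
          ∫⁻ t in Ioi (1 : ℝ), ‖𝓕 (kth a w b σ θ) (t / (2 * Real.pi))‖ₑ ^ 2 := by
          rw [← lintegral_add_compl _ (measurableSet_Iic (a := (1 : ℝ))), Set.compl_Iic]
      _ ≤ ENNReal.ofReal C₂ + ∫⁻ t in Ioi (1 : ℝ), (ENNReal.ofReal C₁ *
          ENNReal.ofReal (kk σ T t * ‖FF a w c ((σ : ℂ) + t * I)‖ ^ 2) +
          ENNReal.ofReal C₁ * ENNReal.ofReal (t ^ (p - 1) * Real.exp (-(2 / T) * t))) :=
          add_le_add (h2 T hT1) (setLIntegral_mono' measurableSet_Ioi hpt)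
      _ = ENNReal.ofReal C₂ + (ENNReal.ofReal C₁ * ET a w c σ T + ENNReal.ofReal C₁ *
          ∫⁻ t in Ioi (1 : ℝ), ENNReal.ofReal (t ^ (p - 1) * Real.exp (-(2 / T) * t))) := by
          rw [lintegral_add_right _ hmm, lintegral_const_mul' _ _ ENNReal.ofReal_ne_top,
            lintegral_const_mul' _ _ ENNReal.ofReal_ne_top]
          rfl
      _ ≤ _ := by
          have := h4 T hT1
          gcongr
  -- the polar part
  have hPol : ∫⁻ u in Iic (0 : ℝ), ‖Pol r b (zr u η)‖ₑ ^ 2 *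
      ENNReal.ofReal (Real.exp (-(2 * σ) * u)) ≤ ENNReal.ofReal (K ^ 2 * G * T ^ p) := by
    have hpt2 : ∀ u ∈ Iic (0 : ℝ), ‖Pol r b (zr u η)‖ₑ ^ 2 *
        ENNReal.ofReal (Real.exp (-(2 * σ) * u)) ≤
        ENNReal.ofReal (K ^ 2) * ENNReal.ofReal (gf p (1 * η) u) := by
      intro u hu
      have hu0 : u ≤ 0 := hu
      have he : 1 ≤ Real.exp (-u) := Real.one_le_exp (by linarith)
      have h5 := Pol_le' (r := r) (b := b) hρ hρ1 hbB (z := zr u η) (by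
        rw [zr_norm]; linarith)
      rw [zr_norm, ← hK] at h5
      rw [esq, ← ENNReal.ofReal_mul (by positivity), ← ENNReal.ofReal_mul (by positivity)]
      apply ENNReal.ofReal_le_ofReal
      have h6 : ‖Pol r b (zr u η)‖ ^ 2 ≤ K ^ 2 * (Real.exp u * Real.exp (-(1 * η) * Real.exp (-u))) := by
        calc ‖Pol r b (zr u η)‖ ^ 2 ≤
              (K * ((Real.exp (-u)) ^ (-(1 / 2) : ℝ) * Real.exp (-(zr u η).re))) ^ 2 :=
              pow_le_pow_left₀ (norm_nonneg _) h5 2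
          _ = K ^ 2 * (Real.exp u * Real.exp (-(2 * (zr u η).re))) := by
              have e5 : ((Real.exp (-u)) ^ (-(1 / 2) : ℝ)) ^ 2 = Real.exp u := by
                rw [← Real.exp_mul, ← Real.exp_nat_mul]
                congr 1
                push_cast; ring
              have e6 : (Real.exp (-(zr u η).re)) ^ 2 = Real.exp (-(2 * (zr u η).re)) := by
                rw [← Real.exp_nat_mul]
                congr 1
                push_cast; ring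
              rw [← e5, ← e6]
              ring
          _ ≤ _ := by
              have h7 : Real.exp (-(2 * (zr u η).re)) ≤ Real.exp (-(1 * η) * Real.exp (-u)) := by
                apply Real.exp_le_exp.2
                rw [zr_re]
                nlinarith
              gcongr
      have h7 : Real.exp u * Real.exp (-(2 * σ) * u) ≤ Real.exp (-p * u) := by
        rw [← Real.exp_add]
        apply Real.exp_le_exp.2
        rw [hp]
        nlinarith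
      calc ‖Pol r b (zr u η)‖ ^ 2 * Real.exp (-(2 * σ) * u) ≤
          K ^ 2 * (Real.exp u * Real.exp (-(1 * η) * Real.exp (-u))) * Real.exp (-(2 * σ) * u) := by
            gcongr
        _ = K ^ 2 * (Real.exp (-(1 * η) * Real.exp (-u)) *
              (Real.exp u * Real.exp (-(2 * σ) * u))) := by ring
        _ ≤ K ^ 2 * (Real.exp (-(1 * η) * Real.exp (-u)) * Real.exp (-p * u)) := by gcongr
        _ = _ := by unfold gf; rfl
    calc _ ≤ ∫⁻ u in Iic (0 : ℝ), ENNReal.ofReal (K ^ 2) * ENNReal.ofReal (gf p (1 * η) u) :=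
          setLIntegral_mono' measurableSet_Iic hpt2
      _ ≤ ∫⁻ u, ENNReal.ofReal (K ^ 2) * ENNReal.ofReal (gf p (1 * η) u) :=
          setLIntegral_le_lintegral _ _
      _ = _ := by
          rw [lintegral_const_mul' _ _ ENNReal.ofReal_ne_top, hgf η hTi0,
            ← ENNReal.ofReal_mul (by positivity)]
          congr 1
          have : η ^ (-p) = T ^ p := by
            rw [hη, one_div, Real.inv_rpow hT0.le, ← Real.rpow_neg hT0.le, neg_neg]
          rw [this]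
          ring
  have hJ : JJ a w σ 0 η ≤ 2 * (∫⁻ u, ‖kth a w b σ θ u‖ₑ ^ 2) +
      2 * ENNReal.ofReal (K ^ 2 * G * T ^ p) := by
    have hpt3 : ∀ u : ℝ, ‖KK a w (zr u η)‖ₑ ^ 2 * ENNReal.ofReal (Real.exp (-(2 * σ) * u)) ≤
        2 * ‖kth a w b σ θ u‖ₑ ^ 2 + 2 * (‖Pol r b (zr u η)‖ₑ ^ 2 *
          ENNReal.ofReal (Real.exp (-(2 * σ) * u))) := by
      intro u
      have h5 : KK a w (zr u η) = Kt a w b (zr u η) + Pol r b (zr u η) := by
        unfold Kt; ring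
      have hk : ‖kth a w b σ θ u‖ₑ ^ 2 = ENNReal.ofReal (Real.exp (-(2 * σ) * u)) *
          ‖Kt a w b (zr u η)‖ₑ ^ 2 := by
        unfold kth zr
        rw [enorm_smul, mul_pow]
        congr 1
        rw [Real.enorm_eq_ofReal (Real.exp_pos _).le, ← ENNReal.ofReal_pow (Real.exp_pos _).le,
          ← Real.exp_nat_mul]
        congr 2
        push_cast; ring
      rw [h5, hk]
      calc _ ≤ (2 * ‖Kt a w b (zr u η)‖ₑ ^ 2 + 2 * ‖Pol r b (zr u η)‖ₑ ^ 2) *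
            ENNReal.ofReal (Real.exp (-(2 * σ) * u)) := mul_le_mul_left (enorm_add_sq _ _) _
        _ = _ := by ring
    have hmk : Measurable fun u : ℝ => 2 * ‖kth a w b σ θ u‖ₑ ^ 2 :=
      ((kth_cont (a := a) hw b σ hθ0 hθ1).enorm.measurable.pow_const 2).const_mul 2
    calc JJ a w σ 0 η = ∫⁻ u in Iic (0 : ℝ), ‖KK a w (zr u η)‖ₑ ^ 2 *
          ENNReal.ofReal (Real.exp (-(2 * σ) * u)) := rfl
      _ ≤ ∫⁻ u in Iic (0 : ℝ), (2 * ‖kth a w b σ θ u‖ₑ ^ 2 + 2 * (‖Pol r b (zr u η)‖ₑ ^ 2 *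
          ENNReal.ofReal (Real.exp (-(2 * σ) * u)))) := lintegral_mono hpt3
      _ = 2 * (∫⁻ u in Iic (0 : ℝ), ‖kth a w b σ θ u‖ₑ ^ 2) +
          2 * ∫⁻ u in Iic (0 : ℝ), ‖Pol r b (zr u η)‖ₑ ^ 2 *
            ENNReal.ofReal (Real.exp (-(2 * σ) * u)) := by
          rw [lintegral_add_left hmk, lintegral_const_mul' _ _ (by simp),
            lintegral_const_mul' _ _ (by simp)]
      _ ≤ _ := by
          refine add_le_add (mul_le_mul_right (setLIntegral_le_lintegral _ _) _)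
            (mul_le_mul_right hPol _)
  have e2 : ENNReal.ofReal 2 = 2 := by simp
  calc FT w σ T ≤ ENNReal.ofReal C₃ * JJ a w σ 0 η := h3 T hT1
    _ ≤ ENNReal.ofReal C₃ * (2 * (ENNReal.ofReal C₂ +
      (ENNReal.ofReal C₁ * ET a w c σ T + ENNReal.ofReal C₁ * ENNReal.ofReal (C₄ * T ^ p))) +
        2 * ENNReal.ofReal (K ^ 2 * G * T ^ p)) := by
        refine mul_le_mul_right (hJ.trans ?_) _
        gcongr
    _ = ENNReal.ofReal (C₃ * (2 * C₁)) * ET a w c σ T +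
        ENNReal.ofReal (C₃ * (2 * C₂ + 2 * (C₁ * (C₄ * T ^ p)) + 2 * (K ^ 2 * G * T ^ p))) := by
        rw [← e2, ← ENNReal.ofReal_mul hC₁.le, ENNReal.ofReal_mul hC₃,
          ENNReal.ofReal_mul (p := (2 : ℝ)) (by norm_num),
          ENNReal.ofReal_mul (p := C₃) hC₃, ENNReal.ofReal_add (by positivity) (by positivity),
          ENNReal.ofReal_add (by positivity) (by positivity),
          ENNReal.ofReal_mul (p := (2 : ℝ)) (by norm_num),
          ENNReal.ofReal_mul (p := (2 : ℝ)) (by norm_num),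
          ENNReal.ofReal_mul (p := (2 : ℝ)) (by norm_num)]
        ring
    _ ≤ _ := by
        refine add_le_add (mul_le_mul_left (ENNReal.ofReal_le_ofReal ?_) _)
          (ENNReal.ofReal_le_ofReal ?_)
        · rw [hD]
          have h5 : 2 * C₁ ≤ 2 * (C₂ + C₁ + C₁ * C₄) + 2 * (K ^ 2 * G) := by
            have : 0 ≤ C₁ * C₄ := by positivity
            have : 0 ≤ K ^ 2 * G := by positivity
            linarith
          gcongr
        · rw [hD]
          have h5 : 2 * C₂ + 2 * (C₁ * (C₄ * T ^ p)) + 2 * (K ^ 2 * G * T ^ p) ≤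
              (2 * (C₂ + C₁ + C₁ * C₄) + 2 * (K ^ 2 * G)) * T ^ p := by
            nlinarith
          calc _ ≤ C₃ * ((2 * (C₂ + C₁ + C₁ * C₄) + 2 * (K ^ 2 * G)) * T ^ p) := by gcongr
            _ = _ := by ring

end Pool.Agent.H312.Ex
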