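import Pool.Agent.H312.Ex.Core

set_option autoImplicit false

/-!
# The unweighted mean square
-/

namespace Pool.Agent.H312.Ex

open Finset Filter Topology MeasureTheory Complex Set
open Pool.Agent.H131R5.BZ Pool.Agent.Y930.Bz Pool.Agent.Y616.BM Pool.Agent.H312.Barnes
open Pool.Agent.H312.Sh

variable {r : ℕ} {a : ℝ} {w : Fin r → ℝ} {c : ℕ → ℂ}

lemma PP_mono (w : Fin r → ℝ) {T T' ρ : ℝ} (hT : 0 < T) (hTT : T ≤ T') (hρ : 0 < ρ) :
    PP w T ρ ≤ PP w T' ρ := by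
  have hT' : 0 < T' := hT.trans_le hTT
  unfold PP
  refine Finset.prod_le_prod (fun j _ => by positivity) fun j _ => ?_
  have h1 := mx_pos hT' hρ (ρ * w j)
  have h2 : max (nd (ρ * w j)) (ρ / T') ≤ max (nd (ρ * w j)) (ρ / T) :=
    max_le_max le_rfl (div_le_div_of_nonneg_left hρ.le hT hTT)
  exact inv_anti₀ (by positivity) (pow_le_pow_left₀ h1.le h2 2)

lemma FT_mono (w : Fin r → ℝ) (σ : ℝ) : Monotone (FT w σ) := by
  intro T T' h
  rcases le_or_gt T 1 with h1 | h1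
  · have : FT w σ T = 0 := by
      unfold FT
      rw [Set.Ioc_eq_empty (not_lt.2 h1)]
      simp
    rw [this]
    exact zero_le
  · have hT0 : 0 < T := by linarith
    unfold FT
    calc _ ≤ ∫⁻ ρ in Ioc 1 T, ENNReal.ofReal (ρ ^ (2 * σ - 1) * PP w T' ρ) := by
          refine setLIntegral_mono' measurableSet_Ioc fun ρ hρ => ENNReal.ofReal_le_ofReal ?_
          have hρ0 : 0 < ρ := by linarith [hρ.1]
          have := PP_mono w hT0 h hρ0
          gcongr
      _ ≤ _ := lintegral_mono_set (Set.Ioc_subset_Ioc_right h)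

/-- the mean square -/
noncomputable def I1 {r : ℕ} (a : ℝ) (w : Fin r → ℝ) (c : ℕ → ℂ) (σ T : ℝ) : ENNReal :=
  ∫⁻ t in Ioc (1 : ℝ) T, ENNReal.ofReal (‖FF a w c ((σ : ℂ) + t * I)‖ ^ 2)

/-- the averaged resonance integral -/
noncomputable def PhT {r : ℕ} (w : Fin r → ℝ) (σ T : ℝ) : ENNReal :=
  ∫⁻ τ in Ioc (1 : ℝ) T, ENNReal.ofReal (τ ^ (-(2 * σ))) * FT w σ τ

lemma ton {q : ℝ → ENNReal} (hq : Measurable q) (σ S : ℝ) :
    ∫⁻ τ in Ioc (1 : ℝ) S, ENNReal.ofReal (τ ^ (-(2 * σ))) * ∫⁻ t in Ioc (1 : ℝ) τ, q t =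
      ∫⁻ t in Ioc (1 : ℝ) S, q t * ∫⁻ τ in Icc t S, ENNReal.ofReal (τ ^ (-(2 * σ))) := by
  set f : ℝ → ℝ → ENNReal := fun τ t =>
    ({p : ℝ × ℝ | p.2 ≤ p.1}).indicator
      (fun p : ℝ × ℝ => ENNReal.ofReal (p.1 ^ (-(2 * σ))) * q p.2) (τ, t) with hf
  have hfm : Measurable (Function.uncurry f) := by
    have h1 : Function.uncurry f = ({p : ℝ × ℝ | p.2 ≤ p.1}).indicator
      (fun p : ℝ × ℝ => ENNReal.ofReal (p.1 ^ (-(2 * σ))) * q p.2) := by
      funext p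
      rfl
    rw [h1]
    refine Measurable.indicator ?_ (measurableSet_le measurable_snd measurable_fst)
    exact (by fun_prop : Measurable fun p : ℝ × ℝ => ENNReal.ofReal (p.1 ^ (-(2 * σ)))).mul
      (hq.comp measurable_snd)
  have e1 : ∀ τ ∈ Ioc (1 : ℝ) S, ENNReal.ofReal (τ ^ (-(2 * σ))) * ∫⁻ t in Ioc (1 : ℝ) τ, q t =
      ∫⁻ t in Ioc (1 : ℝ) S, f τ t := by
    intro τ hτ
    have h1 : ∀ t : ℝ, f τ t = (Iic τ).indicator
        (fun t => ENNReal.ofReal (τ ^ (-(2 * σ))) * q t) t := by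
      intro t
      by_cases h : t ≤ τ
      · rw [Set.indicator_of_mem (show t ∈ Iic τ from h)]
        simp only [hf]
        rw [Set.indicator_of_mem (show (τ, t) ∈ {p : ℝ × ℝ | p.2 ≤ p.1} from h)]
      · rw [Set.indicator_of_notMem (show t ∉ Iic τ from h)]
        simp only [hf]
        rw [Set.indicator_of_notMem (show (τ, t) ∉ {p : ℝ × ℝ | p.2 ≤ p.1} from h)]
    simp only [h1]
    rw [setLIntegral_indicator measurableSet_Iic]
    have h2 : Iic τ ∩ Ioc 1 S = Ioc 1 τ := by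
      ext t
      constructor
      · rintro ⟨h3, h4⟩
        exact ⟨h4.1, h3⟩
      · intro h3
        exact ⟨h3.2, h3.1, h3.2.trans hτ.2⟩
    rw [h2, lintegral_const_mul' _ _ ENNReal.ofReal_ne_top]
  have e2 : ∀ t ∈ Ioc (1 : ℝ) S, q t * ∫⁻ τ in Icc t S, ENNReal.ofReal (τ ^ (-(2 * σ))) =
      ∫⁻ τ in Ioc (1 : ℝ) S, f τ t := by
    intro t ht
    have h1 : ∀ τ : ℝ, f τ t = (Ici t).indicator
        (fun τ => q t * ENNReal.ofReal (τ ^ (-(2 * σ)))) τ := by
      intro τ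
      by_cases h : t ≤ τ
      · rw [Set.indicator_of_mem (show τ ∈ Ici t from h)]
        simp only [hf]
        rw [Set.indicator_of_mem (show (τ, t) ∈ {p : ℝ × ℝ | p.2 ≤ p.1} from h), mul_comm]
      · rw [Set.indicator_of_notMem (show τ ∉ Ici t from h)]
        simp only [hf]
        rw [Set.indicator_of_notMem (show (τ, t) ∉ {p : ℝ × ℝ | p.2 ≤ p.1} from h)]
    simp only [h1]
    rw [setLIntegral_indicator measurableSet_Ici]
    have h2 : Ici t ∩ Ioc 1 S = Icc t S := by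
      ext τ
      constructor
      · rintro ⟨h3, h4⟩
        exact ⟨h3, h4.2⟩
      · intro h3
        exact ⟨h3.1, ht.1.trans_le h3.1, h3.2⟩
    rw [h2, lintegral_const_mul _ (by fun_prop)]
  rw [setLIntegral_congr_fun measurableSet_Ioc e1, setLIntegral_congr_fun measurableSet_Ioc e2]
  exact lintegral_lintegral_swap hfm.aemeasurable

/-- the measurable density -/
noncomputable def qf {r : ℕ} (a : ℝ) (w : Fin r → ℝ) (c : ℕ → ℂ) (σ t : ℝ) : ENNReal :=
  ENNReal.ofReal (t ^ (2 * σ - 1) * ‖FF a w c ((σ : ℂ) + ((max t 1 : ℝ) : ℂ) * I)‖ ^ 2)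

lemma qf_meas (ha : 0 < a) (hw : ∀ j, 0 < w j) (hc : Tay a w c) (σ : ℝ) :
    Measurable (qf a w c σ) := by
  have h1 : Continuous fun t : ℝ => FF a w c ((σ : ℂ) + ((max t 1 : ℝ) : ℂ) * I) := by
    refine continuous_iff_continuousAt.2 fun t => ?_
    have h2 : DifferentiableAt ℂ (FF a w c) ((σ : ℂ) + ((max t 1 : ℝ) : ℂ) * I) :=
      FF_diff ha hw hc (mem_Om_of_im (by simp))
    exact ContinuousAt.comp (g := FF a w c)
      (f := fun t : ℝ => (σ : ℂ) + ((max t 1 : ℝ) : ℂ) * I) h2.continuousAt (by fun_prop)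
  have h2 : Measurable fun t : ℝ => ‖FF a w c ((σ : ℂ) + ((max t 1 : ℝ) : ℂ) * I)‖ ^ 2 :=
    (h1.norm.pow 2).measurable
  unfold qf
  exact ((by fun_prop : Measurable fun t : ℝ => t ^ (2 * σ - 1)).mul h2).ennreal_ofReal

lemma WT_qf (a : ℝ) (w : Fin r → ℝ) (c : ℕ → ℂ) (σ T : ℝ) :
    WT a w c σ T = ∫⁻ t in Ioc (1 : ℝ) T, qf a w c σ t := by
  unfold WT qf
  refine setLIntegral_congr_fun measurableSet_Ioc fun t ht => ?_
  show _ = ENNReal.ofReal (t ^ (2 * σ - 1) *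
    ‖FF a w c ((σ : ℂ) + ((max t 1 : ℝ) : ℂ) * I)‖ ^ 2)
  rw [max_eq_left ht.1.le]

lemma A_le (ha : 0 < a) (hw : ∀ j, 0 < w j) (hc : Tay a w c) {σ : ℝ} (hσ : 1 / 2 < σ) (S : ℝ) :
    ∫⁻ τ in Ioc (1 : ℝ) S, ENNReal.ofReal (τ ^ (-(2 * σ))) * WT a w c σ τ ≤
      ENNReal.ofReal (1 / (2 * σ - 1)) * I1 a w c σ S := by
  have h2σ : 0 < 2 * σ - 1 := by linarith
  simp only [WT_qf]
  rw [ton (qf_meas ha hw hc σ), I1, ← lintegral_const_mul' _ _ ENNReal.ofReal_ne_top]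
  refine setLIntegral_mono' measurableSet_Ioc fun t ht => ?_
  have ht0 : 0 < t := by linarith [ht.1]
  have h1 : ∫⁻ τ in Icc t S, ENNReal.ofReal (τ ^ (-(2 * σ))) ≤
      ENNReal.ofReal (t ^ (1 - 2 * σ) / (2 * σ - 1)) := by
    calc _ ≤ ∫⁻ τ in Ici t, ENNReal.ofReal (τ ^ (-(2 * σ))) :=
          lintegral_mono_set Set.Icc_subset_Ici_self
      _ = ∫⁻ τ in Ioi t, ENNReal.ofReal (τ ^ (-(2 * σ))) := by
          rw [setLIntegral_congr Ioi_ae_eq_Ici.symm]
      _ = ENNReal.ofReal (∫ τ in Ioi t, τ ^ (-(2 * σ))) := by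
          rw [ofReal_integral_eq_lintegral_ofReal
            (integrableOn_Ioi_rpow_of_lt (by linarith) ht0)]
          filter_upwards [self_mem_ae_restrict measurableSet_Ioi] with τ hτ
          have : 0 < τ := ht0.trans hτ
          positivity
      _ = _ := by
          rw [integral_Ioi_rpow_of_lt (by linarith) ht0]
          congr 1
          have e1 : -(2 * σ) + 1 = -(2 * σ - 1) := by ring
          have e2 : (1 : ℝ) - 2 * σ = -(2 * σ - 1) := by ring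
          rw [e1, e2, neg_div_neg_eq]
  calc qf a w c σ t * ∫⁻ τ in Icc t S, ENNReal.ofReal (τ ^ (-(2 * σ))) ≤
      qf a w c σ t * ENNReal.ofReal (t ^ (1 - 2 * σ) / (2 * σ - 1)) := mul_le_mul_right h1 _
    _ = _ := by
        unfold qf
        rw [max_eq_left ht.1.le, ← ENNReal.ofReal_mul (by positivity),
          ← ENNReal.ofReal_mul (by positivity)]
        congr 1
        have e1 : t ^ (2 * σ - 1) * t ^ (1 - 2 * σ) = 1 := by
          rw [← Real.rpow_add ht0]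
          have : 2 * σ - 1 + (1 - 2 * σ) = 0 := by ring
          rw [this, Real.rpow_zero]
        calc _ = (t ^ (2 * σ - 1) * t ^ (1 - 2 * σ)) * (1 / (2 * σ - 1)) *
              ‖FF a w c ((σ : ℂ) + (t : ℂ) * I)‖ ^ 2 := by ring
          _ = _ := by rw [e1, one_mul]

lemma I1_le (ha : 0 < a) (hw : ∀ j, 0 < w j) (hc : Tay a w c) {σ : ℝ} (hσ : 0 < σ) (T : ℝ) :
    I1 a w c σ T ≤ ENNReal.ofReal (2 ^ (2 * σ)) *
      ∫⁻ τ in Ioc (1 : ℝ) (2 * T), ENNReal.ofReal (τ ^ (-(2 * σ))) * WT a w c σ τ := by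
  simp only [WT_qf]
  rw [ton (qf_meas ha hw hc σ), ← lintegral_const_mul' _ _ ENNReal.ofReal_ne_top, I1]
  rcases le_or_gt T 1 with hT | hT
  · rw [Set.Ioc_eq_empty (not_lt.2 hT)]
    simp
  refine le_trans (setLIntegral_mono' measurableSet_Ioc fun t ht => ?_)
    (lintegral_mono_set (Set.Ioc_subset_Ioc_right (by linarith : T ≤ 2 * T)))
  have ht0 : 0 < t := by linarith [ht.1]
  have h1 : ENNReal.ofReal ((2 * t) ^ (-(2 * σ)) * t) ≤
      ∫⁻ τ in Icc t (2 * T), ENNReal.ofReal (τ ^ (-(2 * σ))) := by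
    calc _ = ∫⁻ _τ in Icc t (2 * t), ENNReal.ofReal ((2 * t) ^ (-(2 * σ))) := by
          rw [setLIntegral_const, Real.volume_Icc, ← ENNReal.ofReal_mul (by positivity)]
          congr 2
          ring
      _ ≤ ∫⁻ τ in Icc t (2 * t), ENNReal.ofReal (τ ^ (-(2 * σ))) := by
          refine setLIntegral_mono' measurableSet_Icc fun τ hτ => ENNReal.ofReal_le_ofReal ?_
          exact Real.rpow_le_rpow_of_nonpos (ht0.trans_le hτ.1) hτ.2 (by linarith)
      _ ≤ _ := lintegral_mono_set (Set.Icc_subset_Icc_right (by linarith [ht.2]))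
  calc _ = ENNReal.ofReal (2 ^ (2 * σ)) * (qf a w c σ t *
        ENNReal.ofReal ((2 * t) ^ (-(2 * σ)) * t)) := by
        unfold qf
        rw [max_eq_left ht.1.le, ← ENNReal.ofReal_mul (by positivity),
          ← ENNReal.ofReal_mul (by positivity)]
        congr 1
        have e1 : t ^ (2 * σ - 1) * ((2 * t) ^ (-(2 * σ)) * t) = 2 ^ (-(2 * σ)) := by
          rw [Real.mul_rpow (by norm_num) ht0.le]
          have e3 : t ^ (2 * σ - 1) * t ^ (-(2 * σ)) * t = 1 := by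
            rw [← Real.rpow_add ht0]
            have : 2 * σ - 1 + -(2 * σ) = -1 := by ring
            rw [this, Real.rpow_neg_one]
            field_simp
          calc _ = 2 ^ (-(2 * σ)) * (t ^ (2 * σ - 1) * t ^ (-(2 * σ)) * t) := by ring
            _ = _ := by rw [e3, mul_one]
        have e2 : (2 : ℝ) ^ (2 * σ) * 2 ^ (-(2 * σ)) = 1 := by
          rw [← Real.rpow_add (by norm_num), add_neg_cancel, Real.rpow_zero]
        calc ‖FF a w c ((σ : ℂ) + (t : ℂ) * I)‖ ^ 2 =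
            (2 ^ (2 * σ) * 2 ^ (-(2 * σ))) * ‖FF a w c ((σ : ℂ) + (t : ℂ) * I)‖ ^ 2 := by
              rw [e2, one_mul]
          _ = 2 ^ (2 * σ) * ((t ^ (2 * σ - 1) * ((2 * t) ^ (-(2 * σ)) * t)) *
              ‖FF a w c ((σ : ℂ) + (t : ℂ) * I)‖ ^ 2) := by rw [e1]; ring
          _ = _ := by ring
    _ ≤ _ := mul_le_mul_right (mul_le_mul_right h1 _) _

end Pool.Agent.H312.Ex
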