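import Pool.Agent.H312.Ex.Unw

set_option autoImplicit false

/-!
# The unweighted mean square: both bounds, and the passage to real integrals
-/

namespace Pool.Agent.H312.Ex

open Finset Filter Topology MeasureTheory Complex Set Asymptotics
open Pool.Agent.H131R5.BZ Pool.Agent.Y930.Bz Pool.Agent.Y616.BM Pool.Agent.H312.Barnes
open Pool.Agent.H312.Sh

variable {r : ℕ} {a : ℝ} {w : Fin r → ℝ} {c : ℕ → ℂ}

lemma PhT_ge (w : Fin r → ℝ) {σ : ℝ} (hσ : 0 < σ) {T : ℝ} (hT : 4 ≤ T) :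
    FT w σ 2 ≤ ENNReal.ofReal (4 ^ (2 * σ)) * PhT w σ T := by
  have h1 : ENNReal.ofReal (4 ^ (-(2 * σ))) * FT w σ 2 ≤ PhT w σ T := by
    calc ENNReal.ofReal (4 ^ (-(2 * σ))) * FT w σ 2 ≤
        (ENNReal.ofReal (4 ^ (-(2 * σ))) * FT w σ 2) * ENNReal.ofReal (4 - 2) := by
          have h2 : (1 : ENNReal) ≤ ENNReal.ofReal (4 - 2) := by
            rw [← ENNReal.ofReal_one]
            exact ENNReal.ofReal_le_ofReal (by norm_num)
          calc _ = (ENNReal.ofReal (4 ^ (-(2 * σ))) * FT w σ 2) * 1 := (mul_one _).symm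
            _ ≤ _ := mul_le_mul_right h2 _
      _ = ∫⁻ _τ in Ioc (2 : ℝ) 4, ENNReal.ofReal (4 ^ (-(2 * σ))) * FT w σ 2 := by
          rw [setLIntegral_const, Real.volume_Ioc]
      _ ≤ ∫⁻ τ in Ioc (2 : ℝ) 4, ENNReal.ofReal (τ ^ (-(2 * σ))) * FT w σ τ := by
          refine setLIntegral_mono' measurableSet_Ioc fun τ hτ => ?_
          have h2 : (4 : ℝ) ^ (-(2 * σ)) ≤ τ ^ (-(2 * σ)) :=
            Real.rpow_le_rpow_of_nonpos (by linarith [hτ.1]) hτ.2 (by linarith)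
          exact mul_le_mul' (ENNReal.ofReal_le_ofReal h2) (FT_mono w σ hτ.1.le)
      _ ≤ _ := lintegral_mono_set (Set.Ioc_subset_Ioc (by norm_num) hT)
  calc FT w σ 2 = ENNReal.ofReal (4 ^ (2 * σ)) * (ENNReal.ofReal (4 ^ (-(2 * σ))) * FT w σ 2) := by
        rw [← mul_assoc, ← ENNReal.ofReal_mul (by positivity), ← Real.rpow_add (by norm_num),
          add_neg_cancel, Real.rpow_zero, ENNReal.ofReal_one, one_mul]
    _ ≤ _ := mul_le_mul_right h1 _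

/-- the last dyadic block -/
lemma FT_le_PhT (w : Fin r → ℝ) {σ : ℝ} (hσ : 0 < σ) : ∃ C : ℝ, 0 ≤ C ∧ ∀ T : ℝ, 4 ≤ T →
    ENNReal.ofReal (T ^ (1 - 2 * σ)) * FT w σ T ≤ ENNReal.ofReal C * PhT w σ T := by
  obtain ⟨C₁, hC₁, h1⟩ := FT_dbl w hσ (A := 2) one_le_two
  refine ⟨2 * C₁, by positivity, fun T hT => ?_⟩
  have hT0 : 0 < T := by linarith
  have h3 := h1 (T / 2) (by linarith)
  have e3 : 2 * (T / 2) = T := by ring
  rw [e3] at h3
  have h4 : ENNReal.ofReal (T ^ (-(2 * σ)) * (T / 2)) * FT w σ (T / 2) ≤ PhT w σ T := by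
    calc _ = ∫⁻ _τ in Ioc (T / 2) T, ENNReal.ofReal (T ^ (-(2 * σ))) * FT w σ (T / 2) := by
          rw [setLIntegral_const, Real.volume_Ioc, ENNReal.ofReal_mul (by positivity)]
          have : T - T / 2 = T / 2 := by ring
          rw [this]
          ring
      _ ≤ ∫⁻ τ in Ioc (T / 2) T, ENNReal.ofReal (τ ^ (-(2 * σ))) * FT w σ τ := by
          refine setLIntegral_mono' measurableSet_Ioc fun τ hτ => ?_
          have h2 : T ^ (-(2 * σ)) ≤ τ ^ (-(2 * σ)) :=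
            Real.rpow_le_rpow_of_nonpos (by linarith [hτ.1]) hτ.2 (by linarith)
          exact mul_le_mul' (ENNReal.ofReal_le_ofReal h2) (FT_mono w σ hτ.1.le)
      _ ≤ _ := lintegral_mono_set (Set.Ioc_subset_Ioc_left (by linarith))
  have e4 : T ^ (1 - 2 * σ) = 2 * (T ^ (-(2 * σ)) * (T / 2)) := by
    rw [Real.rpow_sub hT0, Real.rpow_one, Real.rpow_neg hT0.le]
    field_simp
  calc ENNReal.ofReal (T ^ (1 - 2 * σ)) * FT w σ T ≤
      ENNReal.ofReal (T ^ (1 - 2 * σ)) * (ENNReal.ofReal C₁ * FT w σ (T / 2)) :=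
        mul_le_mul_right h3 _
    _ = ENNReal.ofReal (2 * C₁) *
        (ENNReal.ofReal (T ^ (-(2 * σ)) * (T / 2)) * FT w σ (T / 2)) := by
        rw [e4, ENNReal.ofReal_mul (p := (2 : ℝ)) (q := T ^ (-(2 * σ)) * (T / 2)) (by norm_num),
          ENNReal.ofReal_mul (p := (2 : ℝ)) (q := C₁) (by norm_num)]
        ring
    _ ≤ _ := mul_le_mul_right h4 _

lemma PhT_dbl (w : Fin r → ℝ) {σ : ℝ} (hσ : 0 < σ) : ∃ C : ℝ, 0 ≤ C ∧ ∀ T : ℝ, 4 ≤ T →
    PhT w σ (2 * T) ≤ ENNReal.ofReal C * PhT w σ T := by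
  obtain ⟨C₁, hC₁, h1⟩ := FT_dbl w hσ (A := 2) one_le_two
  obtain ⟨C₂, hC₂, h2⟩ := FT_le_PhT w hσ
  refine ⟨1 + C₁ * C₂, by positivity, fun T hT => ?_⟩
  have hT0 : 0 < T := by linarith
  have hsub : Ioc 1 (2 * T) ⊆ Ioc 1 T ∪ Ioc T (2 * T) := by
    intro τ hτ
    rcases le_or_gt τ T with h | h
    · exact Or.inl ⟨hτ.1, h⟩
    · exact Or.inr ⟨h, hτ.2⟩
  have h3 : ∫⁻ τ in Ioc T (2 * T), ENNReal.ofReal (τ ^ (-(2 * σ))) * FT w σ τ ≤
      ENNReal.ofReal (C₁ * C₂) * PhT w σ T := by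
    calc _ ≤ ∫⁻ _τ in Ioc T (2 * T), ENNReal.ofReal (T ^ (-(2 * σ))) * FT w σ (2 * T) := by
          refine setLIntegral_mono' measurableSet_Ioc fun τ hτ => ?_
          have h2 : τ ^ (-(2 * σ)) ≤ T ^ (-(2 * σ)) :=
            Real.rpow_le_rpow_of_nonpos hT0 hτ.1.le (by linarith)
          exact mul_le_mul' (ENNReal.ofReal_le_ofReal h2) (FT_mono w σ hτ.2)
      _ = ENNReal.ofReal (T ^ (1 - 2 * σ)) * FT w σ (2 * T) := by
          rw [setLIntegral_const, Real.volume_Ioc]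
          have e5 : 2 * T - T = T := by ring
          have e4 : T ^ (1 - 2 * σ) = T ^ (-(2 * σ)) * T := by
            rw [Real.rpow_sub hT0, Real.rpow_one, Real.rpow_neg hT0.le]
            field_simp
          rw [e5, e4, ENNReal.ofReal_mul (by positivity)]
          ring
      _ ≤ ENNReal.ofReal (T ^ (1 - 2 * σ)) * (ENNReal.ofReal C₁ * FT w σ T) :=
          mul_le_mul_right (h1 T (by linarith)) _
      _ = ENNReal.ofReal C₁ * (ENNReal.ofReal (T ^ (1 - 2 * σ)) * FT w σ T) := by ring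
      _ ≤ ENNReal.ofReal C₁ * (ENNReal.ofReal C₂ * PhT w σ T) := mul_le_mul_right (h2 T hT) _
      _ = _ := by rw [← mul_assoc, ← ENNReal.ofReal_mul hC₁]
  calc PhT w σ (2 * T) ≤ ∫⁻ τ in Ioc 1 T ∪ Ioc T (2 * T),
        ENNReal.ofReal (τ ^ (-(2 * σ))) * FT w σ τ := lintegral_mono_set hsub
    _ ≤ PhT w σ T + ∫⁻ τ in Ioc T (2 * T), ENNReal.ofReal (τ ^ (-(2 * σ))) * FT w σ τ :=
        lintegral_union_le _ _ _
    _ ≤ PhT w σ T + ENNReal.ofReal (C₁ * C₂) * PhT w σ T := add_le_add le_rfl h3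
    _ = _ := by
        rw [ENNReal.ofReal_add (by norm_num) (by positivity), add_mul, ENNReal.ofReal_one,
          one_mul]

theorem I1_le_PhT (ha : 0 < a) (hw : ∀ j, 0 < w j) (hc : Tay a w c) {σ : ℝ} (hσ : 0 < σ) :
    ∃ C : ℝ, 0 ≤ C ∧ ∀ T : ℝ, 4 ≤ T → I1 a w c σ T ≤ ENNReal.ofReal C * PhT w σ T := by
  obtain ⟨C₁, hC₁, h1⟩ := WT_le_FT ha hw hc hσ
  obtain ⟨C₂, hC₂, h2⟩ := PhT_dbl w hσ
  refine ⟨2 ^ (2 * σ) * (C₁ * 4 ^ (2 * σ) + C₁ * C₂), by positivity, fun T hT => ?_⟩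
  have hT0 : 0 < T := by linarith
  have hsub : Ioc 1 (2 * T) ⊆ Ioc 1 2 ∪ Ioc 2 (2 * T) := by
    intro τ hτ
    rcases le_or_gt τ 2 with h | h
    · exact Or.inl ⟨hτ.1, h⟩
    · exact Or.inr ⟨h, hτ.2⟩
  have h3 : ∫⁻ τ in Ioc (1 : ℝ) 2, ENNReal.ofReal (τ ^ (-(2 * σ))) * WT a w c σ τ ≤
      ENNReal.ofReal (C₁ * 4 ^ (2 * σ)) * PhT w σ T := by
    calc _ ≤ ∫⁻ _τ in Ioc (1 : ℝ) 2, ENNReal.ofReal C₁ * FT w σ 2 := by
          refine setLIntegral_mono' measurableSet_Ioc fun τ hτ => ?_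
          have e1 : ENNReal.ofReal (τ ^ (-(2 * σ))) ≤ 1 := by
            rw [← ENNReal.ofReal_one]
            exact ENNReal.ofReal_le_ofReal
              (Real.rpow_le_one_of_one_le_of_nonpos hτ.1.le (by linarith))
          have e2 : WT a w c σ τ ≤ ENNReal.ofReal C₁ * FT w σ 2 :=
            (lintegral_mono_set (Set.Ioc_subset_Ioc_right hτ.2)).trans (h1 2 le_rfl)
          calc _ ≤ 1 * (ENNReal.ofReal C₁ * FT w σ 2) := mul_le_mul' e1 e2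
            _ = _ := one_mul _
      _ = ENNReal.ofReal C₁ * FT w σ 2 := by
          rw [setLIntegral_const, Real.volume_Ioc]
          norm_num
      _ ≤ ENNReal.ofReal C₁ * (ENNReal.ofReal (4 ^ (2 * σ)) * PhT w σ T) :=
          mul_le_mul_right (PhT_ge w hσ hT) _
      _ = _ := by rw [← mul_assoc, ← ENNReal.ofReal_mul hC₁]
  have h4 : ∫⁻ τ in Ioc (2 : ℝ) (2 * T), ENNReal.ofReal (τ ^ (-(2 * σ))) * WT a w c σ τ ≤
      ENNReal.ofReal (C₁ * C₂) * PhT w σ T := by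
    calc _ ≤ ∫⁻ τ in Ioc (2 : ℝ) (2 * T), ENNReal.ofReal C₁ *
          (ENNReal.ofReal (τ ^ (-(2 * σ))) * FT w σ τ) := by
          refine setLIntegral_mono' measurableSet_Ioc fun τ hτ => ?_
          calc _ ≤ ENNReal.ofReal (τ ^ (-(2 * σ))) * (ENNReal.ofReal C₁ * FT w σ τ) :=
                mul_le_mul_right (h1 τ hτ.1.le) _
            _ = _ := by ring
      _ = ENNReal.ofReal C₁ * ∫⁻ τ in Ioc (2 : ℝ) (2 * T),
          (ENNReal.ofReal (τ ^ (-(2 * σ))) * FT w σ τ) :=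
          lintegral_const_mul' _ _ ENNReal.ofReal_ne_top
      _ ≤ ENNReal.ofReal C₁ * PhT w σ (2 * T) :=
          mul_le_mul_right (lintegral_mono_set (Set.Ioc_subset_Ioc_left (by norm_num))) _
      _ ≤ ENNReal.ofReal C₁ * (ENNReal.ofReal C₂ * PhT w σ T) := mul_le_mul_right (h2 T hT) _
      _ = _ := by rw [← mul_assoc, ← ENNReal.ofReal_mul hC₁]
  calc I1 a w c σ T ≤ _ := I1_le ha hw hc hσ T
    _ ≤ ENNReal.ofReal (2 ^ (2 * σ)) * (ENNReal.ofReal (C₁ * 4 ^ (2 * σ)) * PhT w σ T +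
        ENNReal.ofReal (C₁ * C₂) * PhT w σ T) := by
        refine mul_le_mul_right ((lintegral_mono_set hsub).trans
          ((lintegral_union_le _ _ _).trans (add_le_add h3 h4))) _
    _ = _ := by
        rw [ENNReal.ofReal_mul (p := (2 : ℝ) ^ (2 * σ)) (by positivity),
          ENNReal.ofReal_add (by positivity) (by positivity)]
        ring

theorem PhT_le_I1 (ha : 0 < a) (hw : ∀ j, 0 < w j) (hc : Tay a w c) {σ : ℝ} (hσ : 1 / 2 < σ) :
    ∃ C T₀ : ℝ, 0 ≤ C ∧ 2 ≤ T₀ ∧ ∀ T : ℝ, T₀ ≤ T →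
      PhT w σ T ≤ ENNReal.ofReal C * I1 a w c σ T := by
  obtain ⟨C₁, T₀, hC₁, hT₀, h1⟩ := FT_le_WT ha hw hc (by linarith : 0 < σ)
  have h2σ : 0 < 2 * σ - 1 := by linarith
  have hT₀0 : 0 < T₀ := by linarith
  refine ⟨T₀ * (C₁ * T₀ ^ (2 * σ - 1)) + C₁ * (1 / (2 * σ - 1)), T₀, by positivity, hT₀,
    fun T hT => ?_⟩
  have hsub : Ioc 1 T ⊆ Ioc 1 T₀ ∪ Ioc T₀ T := by
    intro τ hτ
    rcases le_or_gt τ T₀ with h | h
    · exact Or.inl ⟨hτ.1, h⟩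
    · exact Or.inr ⟨h, hτ.2⟩
  have h3 : WT a w c σ T₀ ≤ ENNReal.ofReal (T₀ ^ (2 * σ - 1)) * I1 a w c σ T := by
    calc WT a w c σ T₀ ≤ ∫⁻ t in Ioc (1 : ℝ) T₀, ENNReal.ofReal (T₀ ^ (2 * σ - 1)) *
          ENNReal.ofReal (‖FF a w c ((σ : ℂ) + t * I)‖ ^ 2) := by
          refine setLIntegral_mono' measurableSet_Ioc fun t ht => ?_
          rw [← ENNReal.ofReal_mul (by positivity)]
          apply ENNReal.ofReal_le_ofReal
          have h4 : t ^ (2 * σ - 1) ≤ T₀ ^ (2 * σ - 1) :=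
            Real.rpow_le_rpow (by linarith [ht.1]) ht.2 h2σ.le
          gcongr
      _ = ENNReal.ofReal (T₀ ^ (2 * σ - 1)) * ∫⁻ t in Ioc (1 : ℝ) T₀,
          ENNReal.ofReal (‖FF a w c ((σ : ℂ) + t * I)‖ ^ 2) :=
          lintegral_const_mul' _ _ ENNReal.ofReal_ne_top
      _ ≤ _ := mul_le_mul_right (lintegral_mono_set (Set.Ioc_subset_Ioc_right hT)) _
  have h4 : ∫⁻ τ in Ioc (1 : ℝ) T₀, ENNReal.ofReal (τ ^ (-(2 * σ))) * FT w σ τ ≤
      ENNReal.ofReal (T₀ * (C₁ * T₀ ^ (2 * σ - 1))) * I1 a w c σ T := by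
    calc _ ≤ ∫⁻ _τ in Ioc (1 : ℝ) T₀, FT w σ T₀ := by
          refine setLIntegral_mono' measurableSet_Ioc fun τ hτ => ?_
          have e1 : ENNReal.ofReal (τ ^ (-(2 * σ))) ≤ 1 := by
            rw [← ENNReal.ofReal_one]
            exact ENNReal.ofReal_le_ofReal
              (Real.rpow_le_one_of_one_le_of_nonpos hτ.1.le (by linarith))
          calc _ ≤ 1 * FT w σ T₀ := mul_le_mul' e1 (FT_mono w σ hτ.2)
            _ = _ := one_mul _
      _ = FT w σ T₀ * ENNReal.ofReal (T₀ - 1) := by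
          rw [setLIntegral_const, Real.volume_Ioc]
      _ ≤ (ENNReal.ofReal C₁ * (ENNReal.ofReal (T₀ ^ (2 * σ - 1)) * I1 a w c σ T)) *
          ENNReal.ofReal T₀ := by
          refine mul_le_mul' ((h1 T₀ le_rfl).trans (mul_le_mul_right h3 _))
            (ENNReal.ofReal_le_ofReal (by linarith))
      _ = _ := by
          rw [ENNReal.ofReal_mul hT₀0.le, ENNReal.ofReal_mul hC₁]
          ring
  have h5 : ∫⁻ τ in Ioc T₀ T, ENNReal.ofReal (τ ^ (-(2 * σ))) * FT w σ τ ≤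
      ENNReal.ofReal (C₁ * (1 / (2 * σ - 1))) * I1 a w c σ T := by
    calc _ ≤ ∫⁻ τ in Ioc T₀ T, ENNReal.ofReal C₁ *
          (ENNReal.ofReal (τ ^ (-(2 * σ))) * WT a w c σ τ) := by
          refine setLIntegral_mono' measurableSet_Ioc fun τ hτ => ?_
          calc _ ≤ ENNReal.ofReal (τ ^ (-(2 * σ))) * (ENNReal.ofReal C₁ * WT a w c σ τ) :=
                mul_le_mul_right (h1 τ hτ.1.le) _
            _ = _ := by ring
      _ = ENNReal.ofReal C₁ * ∫⁻ τ in Ioc T₀ T,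
          (ENNReal.ofReal (τ ^ (-(2 * σ))) * WT a w c σ τ) :=
          lintegral_const_mul' _ _ ENNReal.ofReal_ne_top
      _ ≤ ENNReal.ofReal C₁ * ∫⁻ τ in Ioc 1 T,
          (ENNReal.ofReal (τ ^ (-(2 * σ))) * WT a w c σ τ) :=
          mul_le_mul_right (lintegral_mono_set (Set.Ioc_subset_Ioc_left (by linarith))) _
      _ ≤ ENNReal.ofReal C₁ * (ENNReal.ofReal (1 / (2 * σ - 1)) * I1 a w c σ T) :=
          mul_le_mul_right (A_le ha hw hc hσ T) _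
      _ = _ := by rw [← mul_assoc, ← ENNReal.ofReal_mul hC₁]
  calc PhT w σ T ≤ ∫⁻ τ in Ioc 1 T₀ ∪ Ioc T₀ T,
        ENNReal.ofReal (τ ^ (-(2 * σ))) * FT w σ τ := lintegral_mono_set hsub
    _ ≤ _ := (lintegral_union_le _ _ _).trans (add_le_add h4 h5)
    _ = _ := by rw [ENNReal.ofReal_add (by positivity) (by positivity), add_mul]

lemma PhT_ne_top (w : Fin r → ℝ) {σ T : ℝ} (hσ : 0 < σ) (hT : 1 ≤ T) : PhT w σ T ≠ ⊤ := by
  refine ne_of_lt ?_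
  calc PhT w σ T ≤ ∫⁻ _τ in Ioc (1 : ℝ) T, FT w σ T := by
        refine setLIntegral_mono' measurableSet_Ioc fun τ hτ => ?_
        have e1 : ENNReal.ofReal (τ ^ (-(2 * σ))) ≤ 1 := by
          rw [← ENNReal.ofReal_one]
          exact ENNReal.ofReal_le_ofReal
            (Real.rpow_le_one_of_one_le_of_nonpos hτ.1.le (by linarith))
        calc _ ≤ 1 * FT w σ T := mul_le_mul' e1 (FT_mono w σ hτ.2)
          _ = _ := one_mul _
    _ = FT w σ T * ENNReal.ofReal (T - 1) := by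
        rw [setLIntegral_const, Real.volume_Ioc]
    _ < ⊤ := ENNReal.mul_lt_top (FT_lt_top w hσ hT) ENNReal.ofReal_lt_top

lemma theta_of {f g : ℝ → ENNReal} {T₀ C₁ C₂ : ℝ} (hC₁ : 0 ≤ C₁) (hC₂ : 0 ≤ C₂)
    (hg : ∀ T, T₀ ≤ T → g T ≠ ⊤) (h1 : ∀ T, T₀ ≤ T → f T ≤ ENNReal.ofReal C₁ * g T)
    (h2 : ∀ T, T₀ ≤ T → g T ≤ ENNReal.ofReal C₂ * f T) :
    (fun T => (f T).toReal) =Θ[atTop] fun T => (g T).toReal := by
  constructor
  · refine IsBigO.of_bound C₁ ?_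
    filter_upwards [eventually_ge_atTop T₀] with T hT
    rw [Real.norm_of_nonneg ENNReal.toReal_nonneg, Real.norm_of_nonneg ENNReal.toReal_nonneg]
    have h3 := ENNReal.toReal_mono (ENNReal.mul_ne_top ENNReal.ofReal_ne_top (hg T hT)) (h1 T hT)
    rwa [ENNReal.toReal_mul, ENNReal.toReal_ofReal hC₁] at h3
  · refine IsBigO.of_bound C₂ ?_
    filter_upwards [eventually_ge_atTop T₀] with T hT
    rw [Real.norm_of_nonneg ENNReal.toReal_nonneg, Real.norm_of_nonneg ENNReal.toReal_nonneg]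
    have hf : f T ≠ ⊤ :=
      ne_top_of_le_ne_top (ENNReal.mul_ne_top ENNReal.ofReal_ne_top (hg T hT)) (h1 T hT)
    have h3 := ENNReal.toReal_mono (ENNReal.mul_ne_top ENNReal.ofReal_ne_top hf) (h2 T hT)
    rwa [ENNReal.toReal_mul, ENNReal.toReal_ofReal hC₂] at h3

/-- the resonance integral, as a real number -/
noncomputable def resR {r : ℕ} (w : Fin r → ℝ) (σ T : ℝ) : ℝ :=
  ∫ ρ in (1 : ℝ)..T, ρ ^ (2 * σ - 1) * PP w T ρ

lemma PP_meas (w : Fin r → ℝ) (T : ℝ) : Measurable (PP w T) := by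
  unfold PP
  refine Finset.measurable_fun_prod _ fun j _ => ?_
  have h1 : Measurable fun ρ : ℝ => nd (ρ * w j) := nd_meas.comp (by fun_prop)
  have h2 : Measurable fun ρ : ℝ => max (nd (ρ * w j)) (ρ / T) := h1.max (by fun_prop)
  exact (h2.pow_const 2).inv

lemma resR_eq (w : Fin r → ℝ) (σ : ℝ) {T : ℝ} (hT : 1 ≤ T) :
    resR w σ T = (FT w σ T).toReal := by
  unfold resR FT
  rw [intervalIntegral.integral_of_le hT, integral_eq_lintegral_of_nonneg_ae]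
  · filter_upwards [self_mem_ae_restrict measurableSet_Ioc] with ρ hρ
    have hρ0 : 0 < ρ := by linarith [hρ.1]
    have := PP_nonneg w T ρ
    positivity
  · exact ((by fun_prop : Measurable fun ρ : ℝ => ρ ^ (2 * σ - 1)).mul
      (PP_meas w T)).aestronglyMeasurable

lemma PhR_eq (w : Fin r → ℝ) {σ : ℝ} (hσ : 0 < σ) {T : ℝ} (hT : 1 ≤ T) :
    ∫ τ in (1 : ℝ)..T, τ ^ (-(2 * σ)) * resR w σ τ = (PhT w σ T).toReal := by
  unfold PhT
  have e1 : ∫ τ in (1 : ℝ)..T, τ ^ (-(2 * σ)) * resR w σ τ =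
      ∫ τ in Ioc 1 T, τ ^ (-(2 * σ)) * (FT w σ τ).toReal := by
    rw [intervalIntegral.integral_of_le hT]
    refine setIntegral_congr_fun measurableSet_Ioc fun τ hτ => ?_
    show τ ^ (-(2 * σ)) * resR w σ τ = _
    rw [resR_eq w σ hτ.1.le]
  rw [e1, integral_eq_lintegral_of_nonneg_ae]
  · congr 1
    refine setLIntegral_congr_fun measurableSet_Ioc fun τ hτ => ?_
    have hτ0 : 0 < τ := by linarith [hτ.1]
    show ENNReal.ofReal (τ ^ (-(2 * σ)) * (FT w σ τ).toReal) = _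
    rw [ENNReal.ofReal_mul (by positivity),
      ENNReal.ofReal_toReal (FT_lt_top w hσ hτ.1.le).ne]
  · filter_upwards [self_mem_ae_restrict measurableSet_Ioc] with τ hτ
    have hτ0 : 0 < τ := by linarith [hτ.1]
    have := ENNReal.toReal_nonneg (a := FT w σ τ)
    positivity
  · exact ((by fun_prop : Measurable fun τ : ℝ => τ ^ (-(2 * σ))).mul
      (FT_mono w σ).measurable.ennreal_toReal).aestronglyMeasurable

variable {Z : ℂ → ℂ}

lemma WR_eq (ha : 0 < a) (hw : ∀ j, 0 < w j) (hc : Tay a w c)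
    (hZ : ∀ s ∈ Om r, DifferentiableAt ℂ Z s)
    (hs : ∀ s : ℂ, (r : ℝ) < s.re → Z s = ∑' m : Fin r → ℕ, ((lam a w m : ℝ) : ℂ) ^ (-s))
    (σ : ℝ) {T : ℝ} (hT : 1 ≤ T) :
    ∫ t in (1 : ℝ)..T, t ^ (2 * σ - 1) * ‖Z ((σ : ℂ) + (t : ℂ) * I)‖ ^ 2 =
      (WT a w c σ T).toReal := by
  rw [intervalIntegral.integral_of_le hT, integral_eq_lintegral_of_nonneg_ae]
  · unfold WT
    congr 1
    refine setLIntegral_congr_fun measurableSet_Ioc fun t ht => ?_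
    show ENNReal.ofReal (t ^ (2 * σ - 1) * ‖Z ((σ : ℂ) + (t : ℂ) * I)‖ ^ 2) = _
    rw [eq_FF ha hw hc hZ hs _ (mem_Om_of_im (by simpa using ht.1.le))]
  · filter_upwards [self_mem_ae_restrict measurableSet_Ioc] with t ht
    have ht0 : 0 < t := by linarith [ht.1]
    positivity
  · have h1 : ContinuousOn (fun t : ℝ => ‖Z ((σ : ℂ) + (t : ℂ) * I)‖ ^ 2) (Ioc 1 T) :=
      ((line_cont hZ σ).norm.pow 2).mono fun t ht => ht.1.le
    exact ((by fun_prop : Measurable fun t : ℝ => t ^ (2 * σ - 1)).aestronglyMeasurable).mul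
      (h1.aestronglyMeasurable measurableSet_Ioc)

lemma IR_eq (ha : 0 < a) (hw : ∀ j, 0 < w j) (hc : Tay a w c)
    (hZ : ∀ s ∈ Om r, DifferentiableAt ℂ Z s)
    (hs : ∀ s : ℂ, (r : ℝ) < s.re → Z s = ∑' m : Fin r → ℕ, ((lam a w m : ℝ) : ℂ) ^ (-s))
    (σ : ℝ) {T : ℝ} (hT : 1 ≤ T) :
    ∫ t in (1 : ℝ)..T, ‖Z ((σ : ℂ) + (t : ℂ) * I)‖ ^ 2 = (I1 a w c σ T).toReal := by
  rw [intervalIntegral.integral_of_le hT, integral_eq_lintegral_of_nonneg_ae]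
  · unfold I1
    congr 1
    refine setLIntegral_congr_fun measurableSet_Ioc fun t ht => ?_
    show ENNReal.ofReal (‖Z ((σ : ℂ) + (t : ℂ) * I)‖ ^ 2) = _
    rw [eq_FF ha hw hc hZ hs _ (mem_Om_of_im (by simpa using ht.1.le))]
  · exact ae_of_all _ fun t => by positivity
  · have h1 : ContinuousOn (fun t : ℝ => ‖Z ((σ : ℂ) + (t : ℂ) * I)‖ ^ 2) (Ioc 1 T) :=
      ((line_cont hZ σ).norm.pow 2).mono fun t ht => ht.1.le
    exact h1.aestronglyMeasurable measurableSet_Ioc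

/-- the weighted mean square -/
theorem theta_w (ha : 0 < a) (hw : ∀ j, 0 < w j)
    (hZ : ∀ s ∈ Om r, DifferentiableAt ℂ Z s)
    (hs : ∀ s : ℂ, (r : ℝ) < s.re → Z s = ∑' m : Fin r → ℕ, ((lam a w m : ℝ) : ℂ) ^ (-s))
    {σ : ℝ} (hσ : 0 < σ) :
    (fun T : ℝ => ∫ t in (1 : ℝ)..T, t ^ (2 * σ - 1) * ‖Z ((σ : ℂ) + (t : ℂ) * I)‖ ^ 2)
      =Θ[atTop] fun T : ℝ => resR w σ T := by
  obtain ⟨c, hc⟩ := exists_taylor a hw
  obtain ⟨C₁, hC₁, h1⟩ := WT_le_FT ha hw hc hσ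
  obtain ⟨C₂, T₀, hC₂, hT₀, h2⟩ := FT_le_WT ha hw hc hσ
  have key := theta_of (f := WT a w c σ) (g := FT w σ) hC₁ hC₂
    (fun T hT => (FT_lt_top w hσ (by linarith : 1 ≤ T)).ne) (fun T hT => h1 T (hT₀.trans hT)) h2
  have e1 : (fun T : ℝ => ∫ t in (1 : ℝ)..T, t ^ (2 * σ - 1) * ‖Z ((σ : ℂ) + (t : ℂ) * I)‖ ^ 2)
      =ᶠ[atTop] fun T => (WT a w c σ T).toReal := by
    filter_upwards [eventually_ge_atTop (1 : ℝ)] with T hT
    exact WR_eq ha hw hc hZ hs σ hT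
  have e2 : (fun T : ℝ => resR w σ T) =ᶠ[atTop] fun T => (FT w σ T).toReal := by
    filter_upwards [eventually_ge_atTop (1 : ℝ)] with T hT
    exact resR_eq w σ hT
  exact (e1.trans_isTheta key).trans_eventuallyEq e2.symm

/-- the mean square -/
theorem theta_i (ha : 0 < a) (hw : ∀ j, 0 < w j)
    (hZ : ∀ s ∈ Om r, DifferentiableAt ℂ Z s)
    (hs : ∀ s : ℂ, (r : ℝ) < s.re → Z s = ∑' m : Fin r → ℕ, ((lam a w m : ℝ) : ℂ) ^ (-s))
    {σ : ℝ} (hσ : 1 / 2 < σ) :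
    (fun T : ℝ => ∫ t in (1 : ℝ)..T, ‖Z ((σ : ℂ) + (t : ℂ) * I)‖ ^ 2)
      =Θ[atTop] fun T : ℝ => ∫ τ in (1 : ℝ)..T, τ ^ (-(2 * σ)) * resR w σ τ := by
  obtain ⟨c, hc⟩ := exists_taylor a hw
  obtain ⟨C₁, hC₁, h1⟩ := I1_le_PhT ha hw hc (by linarith : 0 < σ)
  obtain ⟨C₂, T₀, hC₂, hT₀, h2⟩ := PhT_le_I1 ha hw hc hσ
  have key := theta_of (f := I1 a w c σ) (g := PhT w σ) (T₀ := max 4 T₀) hC₁ hC₂
    (fun T hT => PhT_ne_top w (by linarith)
      (by linarith [(le_max_left 4 T₀).trans hT] : 1 ≤ T))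
    (fun T hT => h1 T ((le_max_left _ _).trans hT)) (fun T hT => h2 T ((le_max_right _ _).trans hT))
  have e1 : (fun T : ℝ => ∫ t in (1 : ℝ)..T, ‖Z ((σ : ℂ) + (t : ℂ) * I)‖ ^ 2)
      =ᶠ[atTop] fun T => (I1 a w c σ T).toReal := by
    filter_upwards [eventually_ge_atTop (1 : ℝ)] with T hT
    exact IR_eq ha hw hc hZ hs σ hT
  have e2 : (fun T : ℝ => ∫ τ in (1 : ℝ)..T, τ ^ (-(2 * σ)) * resR w σ τ)
      =ᶠ[atTop] fun T => (PhT w σ T).toReal := by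
    filter_upwards [eventually_ge_atTop (1 : ℝ)] with T hT
    exact PhR_eq w (by linarith) hT
  exact (e1.trans_isTheta key).trans_eventuallyEq e2.symm

end Pool.Agent.H312.Ex
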